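import Pool.Agent.W_a4f561_P73.PDef

/-!
MP_a4f561_co, polylog: splicing of choice functions, bars, the path and the vertices above it, (SQ), LENS of a difference
(helper98).
-/

set_option autoImplicit false

namespace Pool.Agent.W_a4f561_P98

open Pool.Agent.W_a4f561_h26 Pool.Agent.W_a4f561_P73

variable {V : Type} {G : Bars V} {σ : St V}

/-! ### Basic facts -/

theorem inn_of_lt {v : V} (h : G.t v < G.N) : G.inn v := by
  refine ⟨?_, ?_⟩
  · rintro rfl
    have := G.t_bot
    omega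
  · rintro rfl
    have := G.t_top
    omega

theorem inn_of_S (hB : Base G σ) {v : V} (h : v ∉ σ.S) : G.inn v := by
  refine ⟨?_, ?_⟩
  · rintro rfl
    exact h hB.bot_mem
  · rintro rfl
    exact h hB.top_mem

theorem law_eq {v : V} (ω : V × Bool → Bool) (h : v ∈ σ.S ∪ σ.Dec) : law G σ ω v = σ.pi v := by
  unfold law
  rw [if_pos h]

theorem ch_law (hB : Base G σ) (ω : V × Bool → Bool) : Ch G (law G σ ω) := by
  refine ⟨?_, ?_, fun v hv => ?_⟩
  · rw [law_eq ω (Or.inl hB.bot_mem)]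
    exact hB.ch.1
  · rw [law_eq ω (Or.inl hB.top_mem)]
    exact hB.ch.2.1
  · unfold law
    split_ifs with h1 h2
    · exact hB.ch.2.2 v hv
    · rcases zz_cases G hv with ⟨k, _⟩ | ⟨k, _⟩ <;> rw [k]
      · exact Or.inr rfl
      · exact Or.inl rfl
    · rcases zz_cases G hv with ⟨_, k, _⟩ | ⟨_, k, _⟩ <;> rw [k]
      · exact Or.inl rfl
      · exact Or.inr rfl

theorem fin_law (hB : Base G σ) (ω : V × Bool → Bool) : Fin' G σ (law G σ ω) :=
  ⟨ch_law hB ω, fun _ hv => law_eq ω hv⟩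

theorem fin_pi (hB : Base G σ) : Fin' G σ σ.pi := ⟨hB.ch, fun _ _ => rfl⟩

theorem orb_congr {π ρ : V → V} {u : V} (h : ∀ v, Orb π u v → ρ v = π v) {v : V} : Orb ρ u v ↔ Orb π u v := by
  have key : ∀ n, ρ^[n] u = π^[n] u := by
    intro n
    induction n with
    | zero => rfl
    | succ n ih =>
      rw [Function.iterate_succ_apply', Function.iterate_succ_apply', ih]
      exact h _ ⟨n, rfl⟩
  constructor
  · rintro ⟨n, rfl⟩
    exact ⟨n, (key n).symm⟩
  · rintro ⟨n, rfl⟩
    exact ⟨n, key n⟩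

theorem orb_S (hB : Base G σ) {z v : V} (hz : z ∈ σ.S) (h : Orb σ.pi z v) : v ∈ σ.S :=
  W_a4f561_B31.orb_mem_of_closed hB.cl hz h

/-- Final choice functions agree on the closed set. -/
theorem orb_fin (hB : Base G σ) {π : V → V} (hπ : Fin' G σ π) {z v : V} (hz : z ∈ σ.S) :
    Orb π z v ↔ Orb σ.pi z v :=
  orb_congr fun u hu => hπ.2 u (Or.inl (orb_S hB hz hu))

theorem host_fin (hB : Base G σ) {π : V → V} (hπ : Fin' G σ π) {z : V} (hz : z ∈ σ.S) (τ : ℕ) :
    host G π z τ = host G σ.pi z τ :=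
  host_congr (fun u hu => hπ.2 u (Or.inl (orb_S hB hz hu))) τ

theorem host_S (hB : Base G σ) {z : V} (hz : z ∈ σ.S) (τ : ℕ) : host G σ.pi z τ ∈ σ.S :=
  orb_S hB hz (host_orb G σ.pi z τ)

/-- The host at a time up to the death of `e`, for `e` on the route: it is on the route, before `e` or equal to `e`. -/
theorem host_before {π : V → V} (hπ : Ch G π) {z e : V} (he : Orb π z e) (hN : G.t e < G.N) {τ : ℕ}
    (hτ : τ ≤ G.t e) : G.t (host G π z τ) < G.t e ∨ host G π z τ = e := by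
  have h1 := host_t hπ he (inn_of_lt hN)
  have h2 : Orb π (host G π z τ) (host G π z (G.t e)) :=
    W_a4f561_B31.orb_host_host hπ hτ (by omega)
  rw [h1] at h2
  rcases (orb_t hπ h2).lt_or_eq with h3 | h3
  · exact Or.inl h3
  · exact Or.inr (G.t_inj h3)

/-- A vertex of the route which dies at or after `τ` is on the route of the host at `τ`. -/
theorem orb_from_host {π : V → V} (hπ : Ch G π) {z v : V} (hv : Orb π z v) (hN : G.t v < G.N) {τ : ℕ}
    (hτ : τ ≤ G.t v) : Orb π (host G π z τ) v := by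
  have h1 := host_t hπ hv (inn_of_lt hN)
  have h2 : Orb π (host G π z τ) (host G π z (G.t v)) :=
    W_a4f561_B31.orb_host_host hπ hτ (by omega)
  rwa [h1] at h2

/-- A vertex which dies before the host at time `τ` dies before `τ`. -/
theorem lt_of_host {π : V → V} (hπ : Ch G π) {z v : V} (hv : Orb π z v) (hN : G.t v < G.N) {τ : ℕ}
    (h : G.t v < G.t (host G π z τ)) : G.t v < τ := by
  by_contra hc
  have := orb_t hπ (orb_from_host hπ hv hN (not_lt.1 hc))
  omega

/-! ### Splicing -/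

/-- `π` before the time `T`, `π'` from then on. -/
noncomputable def spl (G : Bars V) (T : ℕ) (π π' : V → V) (v : V) : V := by
  classical
  exact if G.t v < T then π v else π' v

theorem spl_lt {T : ℕ} {π π' : V → V} {v : V} (h : G.t v < T) : spl G T π π' v = π v := by
  unfold spl
  rw [if_pos h]

theorem spl_ge {T : ℕ} {π π' : V → V} {v : V} (h : T ≤ G.t v) : spl G T π π' v = π' v := by
  unfold spl
  rw [if_neg (not_lt.2 h)]

theorem fin_spl {T : ℕ} {π π' : V → V} (h : Fin' G σ π) (h' : Fin' G σ π') : Fin' G σ (spl G T π π') := by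
  refine ⟨⟨?_, ?_, fun v hv => ?_⟩, fun v hv => ?_⟩
  · unfold spl
    split_ifs
    · exact h.1.1
    · exact h'.1.1
  · unfold spl
    split_ifs
    · exact h.1.2.1
    · exact h'.1.2.1
  · unfold spl
    split_ifs
    · exact h.1.2.2 v hv
    · exact h'.1.2.2 v hv
  · unfold spl
    split_ifs
    · exact h.2 v hv
    · exact h'.2 v hv

theorem host_spl {T τ : ℕ} (hτ : τ ≤ T) (π π' : V → V) (u : V) : host G (spl G T π π') u τ = host G π u τ := by
  unfold host
  have : (fun w => if G.t w < τ then spl G T π π' w else w) = fun w => if G.t w < τ then π w else w := by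
    funext w
    by_cases h : G.t w < τ
    · rw [if_pos h, if_pos h, spl_lt (by omega)]
    · rw [if_neg h, if_neg h]
  rw [this]

/-- The route of `q` in the spliced function: the old route up to `e`, then the new route of `e`. -/
theorem orb_spl {π π' : V → V} (h : Fin' G σ π) (h' : Fin' G σ π') {q e : V} (he : Orb π q e)
    (hN : G.t e < G.N) :
    Orb (spl G (G.t e) π π') q e ∧
    (∀ v, Orb π' e v → Orb (spl G (G.t e) π π') q v) ∧
    (∀ v, Orb (spl G (G.t e) π π') q v → G.t v < G.t e ∧ Orb π q v ∨ Orb π' e v) := by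
  have hs := fin_spl (T := G.t e) h h'
  have h1 : Orb (spl G (G.t e) π π') q e := by
    have h2 := host_t h.1 he (inn_of_lt hN)
    rw [← host_spl le_rfl π π'] at h2
    have h3 := host_orb G (spl G (G.t e) π π') q (G.t e)
    rwa [h2] at h3
  have h4 : ∀ v, Orb (spl G (G.t e) π π') e v ↔ Orb π' e v := fun v =>
    orb_congr fun u hu => spl_ge (orb_t h'.1 hu)
  refine ⟨h1, fun v hv => orb_trans h1 ((h4 v).2 hv), fun v hv => ?_⟩
  rcases Nat.lt_or_ge (G.t v) (G.t e) with h5 | h5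
  · left
    refine ⟨h5, ?_⟩
    have h6 := host_t hs.1 hv (inn_of_lt (h5.trans hN))
    rw [host_spl h5.le] at h6
    have h7 := host_orb G π q (G.t v)
    rwa [h6] at h7
  · right
    exact (h4 v).1 (orb_comp hs.1 h1 hv h5)

/-! ### The order of routes -/

/-- (SQ) The route of a vertex between two paths in `D` with the same end meets the lower one in time. -/
theorem sq (hB : Base G σ) {D : Set V} {s : ℕ} (hD : ∀ v ∈ D, v ∉ σ.S) (hL : LENS G σ D s) {τ : ℕ} (hs : s < τ)
    {x y x' w : V} {π ρ : V → V} (hπ : Fin' G σ π) (hρ : Fin' G σ ρ) (ax : G.al x τ) (ay : G.al y τ)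
    (ax' : G.al x' τ) (h1 : G.r x < G.r y) (h2 : G.r y ≤ G.r x') (hp : PD G D π x w) (hq : PD G D ρ x' w) :
    ∃ u, Orb π x u ∧ G.t u ≤ G.t w ∧ Orb ρ y u ∧ ∀ v, Orb ρ y v → G.t v < G.t u → v ∈ D := by
  have hwD : w ∈ D := hp.2 w hp.1 le_rfl
  have hwi : G.inn w := inn_of_S hB (hD w hwD)
  have hwN : G.t w < G.N := W_a4f561_B31.t_lt_of_inn G hwi
  have htx : G.t x ≤ G.t w := orb_t hπ.1 hp.1
  have htw : τ ≤ G.t w := ax.2.trans htx
  -- the three hosts
  have hP : host G π x (G.t w) = w := host_t hπ.1 hp.1 hwi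
  have hR' : host G ρ x' (G.t w) = w := host_t hρ.1 hq.1 hwi
  have hRR : ∀ η, τ ≤ η → η ≤ G.N → G.r (host G ρ y η) ≤ G.r (host G ρ x' η) := fun η h3 h4 =>
    order_one hρ.1 ay.1 ax'.1 h3 h4 (by
      rw [host_self hρ.1 ay.2, host_self hρ.1 ax'.2]
      exact h2)
  obtain ⟨θ, ⟨h3, h4, h5⟩, hmin⟩ : ∃ θ, (τ < θ ∧ θ ≤ G.t w ∧ host G π x θ = host G ρ y θ) ∧
      ∀ η, η < θ → ¬ (τ < η ∧ η ≤ G.t w ∧ host G π x η = host G ρ y η) := by
    classical
    have hex : ∃ θ, τ < θ ∧ θ ≤ G.t w ∧ host G π x θ = host G ρ y θ :=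
      order hπ.1 hρ.1 ax.1 ay.1 htw hwN.le (by
        rw [host_self hπ.1 ax.2, host_self hρ.1 ay.2]
        exact h1) (by
        have k := hRR _ htw hwN.le
        rw [hR'] at k
        rw [hP]
        exact k)
    exact ⟨Nat.find hex, Nat.find_spec hex, fun η hη => Nat.find_min hex hη⟩
  have hu : Orb π x (host G π x θ) := host_orb _ _ _ _
  have htu : G.t (host G π x θ) ≤ G.t w := by
    rcases host_before hπ.1 hp.1 hwN h4 with h6 | h6
    · exact h6.le
    · rw [h6]
  refine ⟨host G π x θ, hu, htu, by rw [h5]; exact host_orb _ _ _ _, fun v hv htv => ?_⟩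
  have hvN : G.t v < G.N := by omega
  have hvθ : G.t v < θ := lt_of_host hρ.1 hv hvN (by rwa [← h5])
  have hτv : τ ≤ G.t v := ay.2.trans (orb_t hρ.1 hv)
  have hvi : G.inn v := inn_of_lt hvN
  have e : host G ρ y (G.t v) = v := host_t hρ.1 hv hvi
  -- strictly above the lower path
  have h6 : G.r (host G π x (G.t v)) < G.r v := by
    by_contra hc
    obtain ⟨η, k1, k2, k3⟩ := order hπ.1 hρ.1 ax.1 ay.1 hτv hvN.le (by
      rw [host_self hπ.1 ax.2, host_self hρ.1 ay.2]
      exact h1) (by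
      rw [e]
      exact not_lt.1 hc)
    exact hmin η (by omega) ⟨k1, by omega, k3⟩
  have h7 : G.r v ≤ G.r (host G ρ x' (G.t v)) := by
    have := hRR _ hτv hvN.le
    rwa [e] at this
  have h8 : host G ρ x' (G.t v) ∈ D := by
    refine hq.2 _ (host_orb _ _ _ _) ?_
    rcases host_before hρ.1 hq.1 hwN (τ := G.t v) (by omega) with k | k
    · exact k.le
    · rw [k]
  rcases h7.lt_or_eq with h9 | h9
  · refine hL (G.t v) (by omega) (host G π x (G.t v)) v (host G ρ x' (G.t v)) w π ρ hπ hρ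
      (host_al hπ.1 (ax.1.trans hτv) hvN.le) ?_ (host_al hρ.1 (ax'.1.trans hτv) hvN.le) h6 h9 ?_ ?_
    · have := host_al hρ.1 (ay.1.trans hτv) hvN.le
      rwa [e] at this
    · exact ⟨orb_from_host hπ.1 hp.1 hwN (by omega), fun v' k1 k2 =>
        hp.2 v' (orb_trans (host_orb _ _ _ _) k1) k2⟩
    · exact ⟨orb_from_host hρ.1 hq.1 hwN (by omega), fun v' k1 k2 =>
        hq.2 v' (orb_trans (host_orb _ _ _ _) k1) k2⟩
  · rw [G.r_inj h9]
    exact h8

/-- (SQ) for the event `E_w`. -/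
theorem sq_Ew (hB : Base G σ) {D : Set V} {s : ℕ} (hD : ∀ v ∈ D, v ∉ σ.S) (hL : LENS G σ D s) {τ : ℕ}
    (hs : s < τ) {x y x' w : V} {ω : V × Bool → Bool} (ax : G.al x τ) (ay : G.al y τ)
    (ax' : G.al x' τ) (h1 : G.r x < G.r y) (h2 : G.r y ≤ G.r x') (hq : PD G D (law G σ ω) x' w) :
    Ew G σ D w x y ω := fun _ hπ hp => sq hB hD hL hs hπ (fin_law hB ω) ax ay ax' h1 h2 hp hq

end Pool.Agent.W_a4f561_P98
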