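import Pool.Agent.W_a4f561_P97.NewL97
import Pool.Agent.W_a4f561_h1.Def
import Pool.Agent.W_a4f561_E.Link70

/-!
MP_a4f561_co, polylog: the loop over the events of one side of a phase (helper98). Core form: `B` phase of `z0` in the
state `σ1` after the draw, `D1` the present cell, events `(k, v, w)` with deadline `w`, one label per event in the order
of the deadlines (`nlC` of helper97).
-/

set_option autoImplicit false

namespace Pool.Agent.W_a4f561_P98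

open Pool.Agent.W_a4f561_h26 Pool.Agent.W_a4f561_P73 Pool.Agent.W_a4f561_P97
open Pool.Agent.W_a4f561_h1 (Fam Hd)

variable {V : Type} {G : Bars V} {σ : St V}

section pr

variable [Fintype V] [DecidableEq V]

/-- The probability of the star coins. -/
noncomputable def PP (V : Type) [Fintype V] [DecidableEq V] (A : (V × Bool → Bool) → Prop) : ℝ :=
  pr (fun _ => none) A

theorem PP_mono (A B : (V × Bool → Bool) → Prop) (h : ∀ ω, A ω → B ω) : PP V A ≤ PP V B := by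
  unfold PP
  rw [W_a4f561_E.pr_eq, W_a4f561_E.pr_eq]
  exact W_a4f561_E.Pr_mono _ fun om _ => h om

theorem PP_or (A B : (V × Bool → Bool) → Prop) : PP V (fun ω => A ω ∨ B ω) ≤ PP V A + PP V B := by
  unfold PP
  rw [W_a4f561_E.pr_eq, W_a4f561_E.pr_eq, W_a4f561_E.pr_eq]
  exact W_a4f561_E.Pr_or_le _ _ _

theorem PP_false : PP V (fun _ => False) ≤ 0 := by
  unfold PP
  rw [W_a4f561_E.pr_eq, W_a4f561_E.Pr_false _ fun _ _ h => h]

theorem PP_true : PP V (fun _ => True) = 1 := by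
  unfold PP
  rw [W_a4f561_E.pr_eq]
  exact W_a4f561_E.Pr_true _ fun _ _ => trivial

/-- The situation of the loop. `σ` is the state after the draw, `tl` the last time of the phase `B` of `z0`. -/
structure LP (G : Bars V) (σ : St V) (z0 : V) (tl : ℕ) (B D1 : Set V) (κ : ℝ) (si : ℕ) : Prop where
  bot : G.bot ∈ σ.S
  top : G.top ∈ σ.S
  ch : Ch G σ.pi
  k0 : 0 < κ
  k1 : κ ≤ 1
  tN : tl < G.N
  sib : si ≤ G.t z0
  BO : ∀ v ∈ B, Orb σ.pi z0 v ∧ G.inn v ∧ G.t v ≤ tl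
  BH : ∀ τ, G.t z0 < τ → τ ≤ tl → host G σ.pi z0 τ ∈ B
  BS : ∀ v ∈ B, v ∈ σ.S
  DS : ∀ v ∈ D1, v ∉ σ.S
  lens : LENS G σ D1 si
  bt : ∀ w ∈ B, ∀ q τ z, RP G σ D1 {v | v ∈ B ∧ G.t v ≤ G.t w} q → G.t z0 < τ → τ ≤ G.t w → G.al q τ →
    G.al z τ → G.r (host G σ.pi z0 τ) < G.r z → G.r z < G.r q → z ∈ D1 ∨ (z ∈ B ∧ G.t z ≤ G.t w)

omit [Fintype V] [DecidableEq V] in
theorem LP.inn {z0 : V} {tl : ℕ} {B D1 : Set V} {κ : ℝ} {si : ℕ} (h : LP G σ z0 tl B D1 κ si) {v : V}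
    (hv : v ∈ D1) : G.inn v := by
  have := h.DS v hv
  refine ⟨?_, ?_⟩
  · rintro rfl
    exact this h.bot
  · rintro rfl
    exact this h.top

omit [Fintype V] [DecidableEq V] in
theorem LP.chl {z0 : V} {tl : ℕ} {B D1 : Set V} {κ : ℝ} {si : ℕ} (h : LP G σ z0 tl B D1 κ si)
    (ω : V × Bool → Bool) : Ch G (law G σ ω) := by
  refine ⟨?_, ?_, fun v hv => ?_⟩
  · unfold law
    rw [if_pos (show G.bot ∈ σ.S ∪ σ.Dec from Or.inl h.bot)]
    exact h.ch.1
  · unfold law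
    rw [if_pos (show G.top ∈ σ.S ∪ σ.Dec from Or.inl h.top)]
    exact h.ch.2.1
  · unfold law
    split_ifs with h1 h2
    · exact h.ch.2.2 v hv
    · rcases zz_cases G hv with ⟨k, _⟩ | ⟨k, _⟩ <;> rw [k]
      · exact Or.inr rfl
      · exact Or.inl rfl
    · rcases zz_cases G hv with ⟨_, k, _⟩ | ⟨_, k, _⟩ <;> rw [k]
      · exact Or.inl rfl
      · exact Or.inr rfl

omit [Fintype V] [DecidableEq V] in
theorem LP.fin {z0 : V} {tl : ℕ} {B D1 : Set V} {κ : ℝ} {si : ℕ} (h : LP G σ z0 tl B D1 κ si)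
    (ω : V × Bool → Bool) : Fin' G σ (law G σ ω) :=
  ⟨h.chl ω, fun v hv => by unfold law; rw [if_pos hv]⟩

/-- The union of the first labels. -/
def Un (q : ℕ) (F : ℕ → Set V) : Set V := {v | ∃ l, l < q ∧ v ∈ F l}

/-- The invariant of the loop: labels `F l`, `l < q`, of the events `en l`. -/
structure FI (G : Bars V) (σ : St V) (z0 : V) (B D1 : Set V) (κ : ℝ) (si : ℕ) (evs : Finset (Bool × V × V))
    (q : ℕ) (F : ℕ → Set V) (en : ℕ → Bool × V × V) : Prop where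
  mem : ∀ l, l < q → en l ∈ evs
  inj : ∀ l l', l < q → l' < q → en l = en l' → l = l'
  sub : ∀ l, l < q → F l ⊆ D1
  dis : ∀ l l', l < q → l' < q → l ≠ l' → ∀ u ∈ F l, u ∉ F l'
  tm : ∀ l, l < q → ∀ u ∈ F l, G.t (en l).2.1 < G.t u ∧ G.t u < G.t (en l).2.2
  mono : ∀ l l', l ≤ l' → l' < q → G.t (en l).2.2 ≤ G.t (en l').2.2
  suc : ∀ l, l < q → ∀ u ∈ F l, κ ≤ pr (fun _ => none)
    (fun ω => LV G (F l) {v | (v ∈ B ∧ G.t v ≤ G.t (en l).2.2) ∨ ∃ l' < l, v ∈ F l'} (law G σ ω) u)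
  lens : ∀ l, l < q → LENS G σ (F l) (G.t (en l).2.1)
  ab : ∀ l, l < q → ∀ u ∈ F l, ∀ τ, G.t (en l).2.1 < τ → G.al u τ → G.r (host G σ.pi z0 τ) < G.r u
  rest : LENS G σ (D1 \ Un q F) si
  rp : ∀ l, l < q → ∀ u ∈ F l, RP G σ D1 {v | v ∈ B ∧ G.t v ≤ G.t (en l).2.2} u
  dc : ∀ l, l < q → ∀ u ∈ F l, ∀ τ, G.t (en l).2.1 < τ → G.al u τ → ∀ z, G.al z τ →
    G.r (host G σ.pi z0 τ) < G.r z → G.r z < G.r u → z ∈ Un q F ∨ (z ∈ B ∧ G.t z ≤ G.t (en l).2.2)
  hd : ∀ x ∈ evs, ∀ y, Hd G x.1 x.2.1 y → (y ∈ B ∧ G.t y ≤ G.t x.2.2) ∨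
    ∃ l, l < q ∧ G.t (en l).2.2 ≤ G.t x.2.2 ∧ y ∈ F l

/-- The heads get in (`HIn`): for every set `L` of earlier labels. -/
def HIn (G : Bars V) (σ : St V) (z0 : V) (B D1 : Set V) (κ : ℝ) (evs : Finset (Bool × V × V)) : Prop :=
  ∀ x ∈ evs, ∀ y, Hd G x.1 x.2.1 y → ∀ L : Set V, L ⊆ D1 → y ∉ L → ¬ (y ∈ B ∧ G.t y ≤ G.t x.2.2) →
    y ∈ C0 G σ z0 (D1 \ L) (G.t x.2.1) (G.t x.2.2) ∧ (Fintype.card V : ℝ) * κ ≤ pr (fun _ => none)
      (fun ω => LV G (C0 G σ z0 (D1 \ L) (G.t x.2.1) (G.t x.2.2))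
        ({v | v ∈ B ∧ G.t v ≤ G.t x.2.2} ∪ L) (law G σ ω) y)

/-- One more label. -/
theorem fi_nl {z0 : V} {tl : ℕ} {B D1 : Set V} {κ : ℝ} {si : ℕ} (h : LP G σ z0 tl B D1 κ si)
    {evs : Finset (Bool × V × V)} {q : ℕ} {F : ℕ → Set V} {en : ℕ → Bool × V × V}
    (hF : FI G σ z0 B D1 κ si evs q F en) {a : Bool × V × V} (hv : a.2.1 ∈ B) (hw : a.2.2 ∈ B)
    (hmax : ∀ l, l < q → G.t (en l).2.2 ≤ G.t a.2.2) :
    NL G σ (law G σ) (PP V) κ z0 D1 (D1 \ Un q F) {v | v ∈ B ∧ G.t v ≤ G.t a.2.2} (Un q F) si (G.t a.2.1)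
      (G.t a.2.2) where
  fin := h.fin
  pm := PP_mono
  p0 := PP_false
  p1 := by rw [PP_true]; exact h.k1
  k0 := h.k0
  ch := h.ch
  zb := (G.bt z0).trans (orb_t h.ch (h.BO _ hv).1)
  sis := h.sib.trans (orb_t h.ch (h.BO _ hv).1)
  eN := lt_of_le_of_lt (h.BO _ hw).2.2 h.tN
  bh := fun τ h1 h2 => by
    have h3 : G.t z0 ≤ G.t a.2.1 := orb_t h.ch (h.BO _ hv).1
    have h4 := (h.BO _ hw).2.2
    refine ⟨h.BH τ (by omega) (by omega), ?_⟩
    have h5 := host_t h.ch (h.BO _ hw).1 (h.BO _ hw).2.1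
    have h6 : Orb σ.pi (host G σ.pi z0 τ) (host G σ.pi z0 (G.t a.2.2)) :=
      W_a4f561_B31.orb_host_host h.ch h2 (by have := h.tN; omega)
    rw [h5] at h6
    exact orb_t h.ch h6
  BSt := fun v hv => hv.2
  BSh := fun v hv => (h.BO v hv.1).1
  BSi := fun v hv => (h.BO v hv.1).2.1
  DBS := fun v h1 h2 => h.DS v h1.1 (h.BS v h2.1)
  DL := fun v h1 h2 => h1.2 h2
  DD1 := fun v h1 => h1.1
  Di := fun v h1 => h.inn h1.1
  lens := hF.rest
  bt := fun q' τ z h1 h2 h3 h4 h5 h6 h7 => by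
    have h8 : G.t z0 ≤ G.t a.2.1 := orb_t h.ch (h.BO _ hv).1
    rcases h.bt a.2.2 hw q' τ z h1 (by omega) h3 h4 h5 h6 h7 with h9 | h9
    · by_cases h10 : z ∈ Un q F
      · exact Or.inr (Or.inl h10)
      · exact Or.inl ⟨h9, h10⟩
    · exact Or.inr (Or.inr h9)
  rpL := by
    rintro u ⟨l, h1, h2⟩
    obtain ⟨π, h3, v, h4, h5, h6⟩ := hF.rp l h1 u h2
    exact ⟨π, h3, v, ⟨h4.1, h4.2.trans (hmax l h1)⟩, h5, h6⟩
  dcL := by
    rintro u ⟨l, h1, h2⟩
    refine ⟨G.t (en l).2.1, (hF.tm l h1 u h2).1, fun τ h3 h4 z h5 h6 h7 => ?_⟩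
    rcases hF.dc l h1 u h2 τ h3 h4 z h5 h6 h7 with h8 | h8
    · exact Or.inl h8
    · exact Or.inr ⟨h8.1, h8.2.trans (hmax l h1)⟩
  Lt := by
    rintro u ⟨l, h1, h2⟩
    exact (hF.tm l h1 u h2).2.trans_le (hmax l h1)

omit [Fintype V] [DecidableEq V] in
theorem un_succ {q : ℕ} {F F' : ℕ → Set V} (h1 : ∀ l, l < q → F' l = F l) :
    Un (q + 1) F' = Un q F ∪ F' q := by
  ext v
  constructor
  · rintro ⟨l, h2, h3⟩
    rcases Nat.lt_or_ge l q with h4 | h4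
    · exact Or.inl ⟨l, h4, by rwa [← h1 l h4]⟩
    · have : l = q := by omega
      rw [this] at h3
      exact Or.inr h3
  · rintro (⟨l, h2, h3⟩ | h3)
    · exact ⟨l, by omega, by rwa [h1 l h2]⟩
    · exact ⟨q, by omega, h3⟩

/-- The step of the loop. -/
theorem fi_step {z0 : V} {tl : ℕ} {B D1 : Set V} {κ : ℝ} {si : ℕ} (h : LP G σ z0 tl B D1 κ si)
    {evs : Finset (Bool × V × V)} {q : ℕ} {F : ℕ → Set V} {en : ℕ → Bool × V × V}
    (hF : FI G σ z0 B D1 κ si evs q F en) {a : Bool × V × V} (ha : a ∉ evs) (hv : a.2.1 ∈ B) (hw : a.2.2 ∈ B)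
    (hmax : ∀ x ∈ evs, G.t x.2.2 ≤ G.t a.2.2) (hin : HIn G σ z0 B D1 κ (insert a evs)) :
    ∃ F' en', FI G σ z0 B D1 κ si (insert a evs) (q + 1) F' en' := by
  classical
  have hmax' : ∀ l, l < q → G.t (en l).2.2 ≤ G.t a.2.2 := fun l hl => hmax _ (hF.mem l hl)
  have hN := fi_nl h hF hv hw hmax'
  set C : Set V := nlC G σ (law G σ) (PP V) κ z0 (D1 \ Un q F) {v | v ∈ B ∧ G.t v ≤ G.t a.2.2} (Un q F)
    (G.t a.2.1) (G.t a.2.2) with hC
  let F' : ℕ → Set V := fun l => if l < q then F l else C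
  let en' : ℕ → Bool × V × V := fun l => if l < q then en l else a
  have e1 : ∀ l, l < q → F' l = F l := fun l hl => if_pos hl
  have e2 : F' q = C := if_neg (lt_irrefl q)
  have e3 : ∀ l, l < q → en' l = en l := fun l hl => if_pos hl
  have e4 : en' q = a := if_neg (lt_irrefl q)
  have hcase : ∀ l, l < q + 1 → l < q ∨ l = q := fun l hl => by omega
  have hU : Un (q + 1) F' = Un q F ∪ C := by rw [un_succ e1, e2]
  have hCD : C ⊆ D1 \ Un q F := nlC_sub hN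
  refine ⟨F', en', ?_, ?_, ?_, ?_, ?_, ?_, ?_, ?_, ?_, ?_, ?_, ?_, ?_⟩
  · intro l hl
    rcases hcase l hl with h1 | rfl
    · rw [e3 l h1]
      exact Finset.mem_insert_of_mem (hF.mem l h1)
    · rw [e4]
      exact Finset.mem_insert_self _ _
  · intro l l' hl hl' he
    rcases hcase l hl with h1 | rfl <;> rcases hcase l' hl' with h2 | rfl
    · rw [e3 l h1, e3 l' h2] at he
      exact hF.inj l l' h1 h2 he
    · rw [e3 l h1, e4] at he
      exact absurd (he ▸ hF.mem l h1) ha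
    · rw [e3 l' h2, e4] at he
      exact absurd (he.symm ▸ hF.mem l' h2) ha
    · rfl
  · intro l hl
    rcases hcase l hl with h1 | rfl
    · rw [e1 l h1]
      exact hF.sub l h1
    · rw [e2]
      exact fun u hu => (hCD hu).1
  · intro l l' hl hl' hne u hu
    rcases hcase l hl with h1 | rfl <;> rcases hcase l' hl' with h2 | rfl
    · rw [e1 l h1] at hu
      rw [e1 l' h2]
      exact hF.dis l l' h1 h2 hne u hu
    · rw [e1 l h1] at hu
      rw [e2]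
      exact fun hc => (hCD hc).2 ⟨l, h1, hu⟩
    · rw [e2] at hu
      rw [e1 l' h2]
      exact fun hc => (hCD hu).2 ⟨l', h2, hc⟩
    · exact absurd rfl hne
  · intro l hl u hu
    rcases hcase l hl with h1 | rfl
    · rw [e1 l h1] at hu
      rw [e3 l h1]
      exact hF.tm l h1 u hu
    · rw [e2] at hu
      rw [e4]
      exact nlC_t hN hu
  · intro l l' hll hl'
    rcases hcase l' hl' with h2 | rfl
    · rw [e3 l (by omega), e3 l' h2]
      exact hF.mono l l' hll h2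
    · rw [e4]
      rcases hcase l (by omega) with h1 | rfl
      · rw [e3 l h1]
        exact hmax' l h1
      · rw [e4]
  · intro l hl u hu
    rcases hcase l hl with h1 | rfl
    · rw [e1 l h1] at hu ⊢
      rw [e3 l h1]
      have e5 : {v | (v ∈ B ∧ G.t v ≤ G.t (en l).2.2) ∨ ∃ l' < l, v ∈ F' l'} =
          {v | (v ∈ B ∧ G.t v ≤ G.t (en l).2.2) ∨ ∃ l' < l, v ∈ F l'} := by
        ext v
        simp only [Set.mem_ofPred_eq]
        constructor
        · rintro (h2 | ⟨l', h2, h3⟩)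
          · exact Or.inl h2
          · exact Or.inr ⟨l', h2, by rwa [e1 l' (by omega)] at h3⟩
        · rintro (h2 | ⟨l', h2, h3⟩)
          · exact Or.inl h2
          · exact Or.inr ⟨l', h2, by rwa [e1 l' (by omega)]⟩
      rw [e5]
      exact hF.suc l h1 u hu
    · rw [e2] at hu ⊢
      rw [e4]
      have e5 : {v | (v ∈ B ∧ G.t v ≤ G.t a.2.2) ∨ ∃ l' < l, v ∈ F' l'} =
          {v | v ∈ B ∧ G.t v ≤ G.t a.2.2} ∪ Un l F := by
        ext v
        simp only [Set.mem_ofPred_eq]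
        constructor
        · rintro (h2 | ⟨l', h2, h3⟩)
          · exact Or.inl h2
          · exact Or.inr ⟨l', h2, by rwa [e1 l' h2] at h3⟩
        · rintro (h2 | ⟨l', h2, h3⟩)
          · exact Or.inl h2
          · exact Or.inr ⟨l', h2, by rwa [e1 l' h2]⟩
      rw [e5]
      exact nlC_good hN u hu
  · intro l hl
    rcases hcase l hl with h1 | rfl
    · rw [e1 l h1, e3 l h1]
      exact hF.lens l h1
    · rw [e2, e4]
      exact nl_lens hN
  · intro l hl u hu τ h2 h3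
    rcases hcase l hl with h1 | rfl
    · rw [e1 l h1] at hu
      rw [e3 l h1] at h2
      exact hF.ab l h1 u hu τ h2 h3
    · rw [e2] at hu
      rw [e4] at h2
      exact nl_above hN hu h2 h3
  · rw [hU]
    have e5 : D1 \ (Un q F ∪ C) = (D1 \ Un q F) \ C := by
      ext v
      simp only [Set.mem_sdiff, Set.mem_union, not_or]
      tauto
    rw [e5]
    exact nl_rest hN
  · intro l hl u hu
    rcases hcase l hl with h1 | rfl
    · rw [e1 l h1] at hu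
      rw [e3 l h1]
      exact hF.rp l h1 u hu
    · rw [e2] at hu
      rw [e4]
      exact nlC_rp hN hu
  · intro l hl u hu τ h2 h3 z h4 h5 h6
    rw [hU]
    rcases hcase l hl with h1 | rfl
    · rw [e1 l h1] at hu
      rw [e3 l h1] at h2 ⊢
      rcases hF.dc l h1 u hu τ h2 h3 z h4 h5 h6 with h7 | h7
      · exact Or.inl (Or.inl h7)
      · exact Or.inr h7
    · rw [e2] at hu
      rw [e4] at h2 ⊢
      have h7 := (nlC_t hN hu).2
      rcases nl_dc hN h2 (by have := h3.2; omega) (Or.inl hu) h3 h4 h5 h6 with h8 | h8 | h8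
      · exact Or.inl (Or.inr h8)
      · exact Or.inl (Or.inl h8)
      · exact Or.inr h8
  · intro x hx y hy
    rcases Finset.mem_insert.1 hx with rfl | hx'
    · by_cases h1 : y ∈ B ∧ G.t y ≤ G.t x.2.2
      · exact Or.inl h1
      · right
        by_cases h2 : y ∈ Un q F
        · obtain ⟨l, h3, h4⟩ := h2
          exact ⟨l, by omega, by rw [e3 l h3]; exact hmax' l h3, by rw [e1 l h3]; exact h4⟩
        · refine ⟨q, by omega, by rw [e4], ?_⟩
          rw [e2]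
          obtain ⟨h3, h4⟩ := hin x hx y hy (Un q F) (fun u ⟨l, h5, h6⟩ => hF.sub l h5 h6) h2 h1
          refine mem_mx h.chl PP_mono PP_or h.k0 (fun u hu hc => ?_) h3 h4
          exact nl_S hN u hu hc.1
    · rcases hF.hd x hx' y hy with h1 | ⟨l, h1, h2, h3⟩
      · exact Or.inl h1
      · exact Or.inr ⟨l, by omega, by rw [e3 l h1]; exact h2, by rw [e1 l h1]; exact h3⟩

/-- THE LOOP. -/
theorem fi_all {z0 : V} {tl : ℕ} {B D1 : Set V} {κ : ℝ} {si : ℕ} (h : LP G σ z0 tl B D1 κ si)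
    (evs : Finset (Bool × V × V)) (hev : ∀ x ∈ evs, x.2.1 ∈ B ∧ x.2.2 ∈ B) (hin : HIn G σ z0 B D1 κ evs) :
    ∃ q F en, FI G σ z0 B D1 κ si evs q F en := by
  classical
  revert hev hin
  refine Finset.induction_on_max_value (fun x : Bool × V × V => G.t x.2.2) (motive := fun evs =>
    (∀ x ∈ evs, x.2.1 ∈ B ∧ x.2.2 ∈ B) → HIn G σ z0 B D1 κ evs → ∃ q F en, FI G σ z0 B D1 κ si evs q F en) evs
    ?_ ?_
  · intro _ _
    refine ⟨0, fun _ => ∅, fun _ => (false, z0, z0), ?_, ?_, ?_, ?_, ?_, ?_, ?_, ?_, ?_, ?_, ?_, ?_, ?_⟩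
    · exact fun l hl => absurd hl (Nat.not_lt_zero l)
    · exact fun l _ hl => absurd hl (Nat.not_lt_zero l)
    · exact fun l hl => absurd hl (Nat.not_lt_zero l)
    · exact fun l _ hl => absurd hl (Nat.not_lt_zero l)
    · exact fun l hl => absurd hl (Nat.not_lt_zero l)
    · exact fun _ l' _ hl => absurd hl (Nat.not_lt_zero l')
    · exact fun l hl => absurd hl (Nat.not_lt_zero l)
    · exact fun l hl => absurd hl (Nat.not_lt_zero l)
    · exact fun l hl => absurd hl (Nat.not_lt_zero l)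
    · have e : D1 \ Un 0 (fun _ => (∅ : Set V)) = D1 := by
        ext v
        constructor
        · exact fun hv => hv.1
        · exact fun hv => ⟨hv, fun ⟨l, hl, _⟩ => Nat.not_lt_zero l hl⟩
      rw [e]
      exact h.lens
    · exact fun l hl => absurd hl (Nat.not_lt_zero l)
    · exact fun l hl => absurd hl (Nat.not_lt_zero l)
    · exact fun x hx => absurd hx (Finset.notMem_empty x)
  · intro a s ha hmax ih hev hin
    obtain ⟨q, F, en, hF⟩ := ih (fun x hx => hev x (Finset.mem_insert_of_mem hx)) (fun x hx =>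
      hin x (Finset.mem_insert_of_mem hx))
    obtain ⟨h1, h2⟩ := hev a (Finset.mem_insert_self _ _)
    obtain ⟨F', en', hF'⟩ := fi_step h hF ha h1 h2 hmax hin
    exact ⟨q + 1, F', en', hF'⟩

/-- The family of labels of one side, with the rest of the cell and the heads. -/
theorem fam_core {z0 : V} {tl : ℕ} {B D1 : Set V} {κ : ℝ} {si M : ℕ} (h : LP G σ z0 tl B D1 κ si)
    (evs : Finset (Bool × V × V)) (hev : ∀ x ∈ evs, x.2.1 ∈ B ∧ x.2.2 ∈ B) (hin : HIn G σ z0 B D1 κ evs)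
    (hM : ∀ (τ : ℕ) (P : Finset (Bool × V × V)), (∀ x ∈ P, x ∈ evs ∧ G.t x.2.1 < τ ∧ τ < G.t x.2.2) →
      P.card ≤ M) :
    ∃ q F s e, Fam G σ D1 B κ M q F s e ∧ LENS G σ (D1 \ Un q F) si ∧
      (∀ l, l < q → G.t z0 ≤ s l ∧ ∀ u ∈ F l, ∀ τ, s l < τ → G.al u τ → G.r (host G σ.pi z0 τ) < G.r u) ∧
      ∀ x ∈ evs, ∀ y, Hd G x.1 x.2.1 y → (y ∈ B ∧ G.t y ≤ G.t x.2.2) ∨
        ∃ l, l < q ∧ e l ≤ G.t x.2.2 ∧ y ∈ F l := by
  classical
  obtain ⟨q, F, en, hF⟩ := fi_all h evs hev hin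
  refine ⟨q, F, fun l => G.t (en l).2.1, fun l => G.t (en l).2.2, ⟨hF.sub, hF.dis, hF.tm, hF.mono, ?_, hF.suc,
    hF.lens, ?_⟩, hF.rest, fun l hl => ⟨?_, hF.ab l hl⟩, hF.hd⟩
  · exact fun l hl => ⟨_, (hev _ (hF.mem l hl)).2, rfl⟩
  · intro τ P hP
    have h1 := hM τ (P.image en) (by
      intro x hx
      obtain ⟨l, h2, rfl⟩ := Finset.mem_image.1 hx
      obtain ⟨h3, h4, h5⟩ := hP l h2
      exact ⟨hF.mem l h3, h4, h5⟩)
    rwa [Finset.card_image_of_injOn (fun l hl l' hl' he => hF.inj l l' (hP l hl).1 (hP l' hl').1 he)] at h1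
  · exact orb_t h.ch (h.BO _ (hev _ (hF.mem l hl)).1).1

end pr

end Pool.Agent.W_a4f561_P98
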