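import Pool.Agent.W_a4f561_P98.Fam98
import Pool.Agent.W_a4f561_P31.HeadsIn
import Pool.Agent.W_a4f561_h33.DrawL33
import Pool.Agent.W_a4f561_P25.Mir

/-!
MP_a4f561_co, polylog: step (4) of the skeleton, `fam` and `lens_rest` (helper98): the labels of one side of a phase.
-/

set_option autoImplicit false

namespace Pool.Agent.W_a4f561_P98

open Pool.Agent.W_a4f561_h26 Pool.Agent.W_a4f561_P73 Pool.Agent.W_a4f561_P97
open Pool.Agent.W_a4f561_h1 (Fam Hd WInv TD Dr1 Dl Ob Bp Pk Exi)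
open Pool.Agent.W_a4f561_P25 (Area)

variable {V : Type} {G : Bars V}

section inst

variable [Fintype V] [DecidableEq V] {σ σ1 : St V} {D D1 E : Set V} {s0 N : ℕ} {z e vl : V}
  {ω : V × Bool → Bool} {δ : ℝ}

omit [Fintype V] [DecidableEq V] in
theorem D_inn98 {c : V} (hI : WInv G σ c) (hDS : ∀ v ∈ D, v ∉ σ.S) : ∀ v ∈ D, G.inn v := fun v hv =>
  ⟨fun e => hDS v hv (e ▸ hI.bot_mem), fun e => hDS v hv (e ▸ hI.top_mem)⟩

/-- The situation of the loop from the skeleton data. -/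
theorem lp_of (hI : WInv G σ z) (hDS : ∀ v ∈ D, v ∉ σ.S) (hz : z ∈ D) (hs : ∀ v ∈ D, s0 < G.t v)
    (hT : TD G σ D E δ N ω z e) (hD : Dr1 G σ D ω z e vl σ1)
    (hD1 : ∀ u, u ∈ D1 ↔ u ∉ σ1.S ∧ (u ∈ D ∨ Area G σ1.pi z (G.t vl) u))
    (hL : LENS G σ D s0) (hL1 : LENS G σ1 D1 s0) {κ : ℝ} (hκ0 : 0 < κ) (hκ1 : κ ≤ 1) :
    LP G σ1 z (G.t vl) (Bp G σ D ω z) D1 κ s0 := by
  have hDi := D_inn98 hI hDS
  have hch := W_a4f561_h33.ch_law33 hI ω
  have hx := hT.exi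
  have hvlD : vl ∈ D := hD.vlB.2 vl hD.vlB.1 le_rfl
  have hvlN : G.t vl < G.N := G.t_in vl (hDi vl hvlD).1 (hDi vl hvlD).2
  have hiff : ∀ v, v ∈ Bp G σ D ω z ↔ Orb σ1.pi z v ∧ G.t v ≤ G.t vl := fun v =>
    W_a4f561_h33.bp_iff hDi hch hx hD
  have hhost : ∀ τ, τ ≤ G.t vl → host G σ1.pi z τ ∈ Bp G σ D ω z := fun τ hτ => by
    rw [W_a4f561_h33.dr_host hDi hch hD hτ]
    exact W_a4f561_h33.bp_host hDi hch hD hτ
  have hBS : ∀ v ∈ Bp G σ D ω z, v ∈ σ1.S := fun v hv => (hD.S v).2 (Or.inr hv)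
  have hBD : ∀ v ∈ Bp G σ D ω z, v ∈ D := fun v hv => hv.2 v hv.1 le_rfl
  refine ⟨hD.inv.bot_mem, hD.inv.top_mem, hD.inv.ch, hκ0, hκ1, hvlN, (hs z hz).le, ?_, ?_, hBS, ?_, hL1, ?_⟩
  · exact fun v hv => ⟨((hiff v).1 hv).1, hDi v (hBD v hv), ((hiff v).1 hv).2⟩
  · exact fun τ _ hτ => hhost τ hτ
  · exact fun v hv => ((hD1 v).1 hv).1
  · intro w hw q τ u hq h1 h2 aq au h3 h4
    have hwt : G.t w ≤ G.t vl := ((hiff w).1 hw).2
    have hst := W_a4f561_h33.RelH.strong (W_a4f561_h33.relH_dr hDi hch hD) (W_a4f561_h33.gr_mid hD)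
      (D₀ := D) (D₁ := D1) (BS := {v | v ∈ Bp G σ D ω z ∧ G.t v ≤ G.t w}) (si := s0) (e := G.t w) hL
      (fun τ _ hτ => hBD _ (hhost τ hτ)) (fun v hv hvS => by
        rcases (hD.S v).1 hvS with h5 | h5
        · exact absurd h5 (hDS v hv)
        · exact ((hiff v).1 h5).1) (fun v => by
        rw [hD1 v]
        constructor
        · rintro ⟨h5, h6 | h6⟩
          · exact Or.inl ⟨h6, h5⟩
          · exact Or.inr h6
        · rintro (h5 | h5)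
          · exact ⟨h5.2, Or.inl h5.1⟩
          · exact ⟨fun h6 => hD.noS v h6 h5, Or.inr h5⟩) hwt (fun v => by
        constructor
        · rintro ⟨h5, h6⟩
          exact ⟨((hiff v).1 h5).1, h6⟩
        · rintro ⟨h5, h6⟩
          exact ⟨(hiff v).2 ⟨h5, h6.trans hwt⟩, h6⟩) hq
      (by have := hs z hz; omega) (by have := G.bt z; omega) aq au h3 h4
    exact hst

/-- The events of one side with their deadlines. -/
noncomputable def evs98 (G : Bars V) (σ : St V) (D : Set V) (δ : ℝ) (ω : V × Bool → Bool) (z : V) :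
    Finset (Bool × V × V) := by
  classical
  exact Finset.univ.filter (fun x => Dl G σ D δ ω z x.1 x.2.1 x.2.2)

theorem mem_evs {x : Bool × V × V} : x ∈ evs98 G σ D δ ω z ↔ Dl G σ D δ ω z x.1 x.2.1 x.2.2 := by
  classical
  unfold evs98
  simp

theorem dl_unique {k : Bool} {v w w' : V} (h : Dl G σ D δ ω z k v w) (h' : Dl G σ D δ ω z k v w') : w = w' := by
  rcases lt_trichotomy (G.t w) (G.t w') with h1 | h1 | h1
  · obtain ⟨y, h2, h3⟩ := h'.2.2.2.2 w h.2.1 h.2.2.1 h1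
    exact absurd (h.2.2.2.1 y h2) (not_le.2 h3)
  · exact G.t_inj h1
  · obtain ⟨y, h2, h3⟩ := h.2.2.2.2 w' h'.2.1 h'.2.2.1 h1
    exact absurd (h'.2.2.2.1 y h2) (not_le.2 h3)

omit [Fintype V] [DecidableEq V] in
theorem hdk_of {k : Bool} {v y : V} (h : Hd G k v y) : W_a4f561_P31.HdK G k v y := by
  unfold W_a4f561_P31.HdK
  rcases h with ⟨h1, h2⟩ | ⟨h1, h2⟩
  · rw [if_pos h1]
    exact h2
  · rw [if_neg (by rw [h1]; decide)]
    exact h2

omit [Fintype V] [DecidableEq V] in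
theorem evk_of {k : Bool} {v : V} (h : Ob G σ D ω z k v) : W_a4f561_P31.EvK G σ D ω z k v := by
  unfold W_a4f561_P31.EvK
  refine ⟨h.1, ?_⟩
  rcases h.2 with ⟨h1, h2⟩ | ⟨h1, h2⟩
  · rw [if_pos h1]
    exact h2
  · rw [if_neg (by rw [h1]; decide)]
    exact h2

/-- OPEN for the events with deadlines. -/
theorem open98 (hI : WInv G σ z) (hT : TD G σ D E δ N ω z e) (τ : ℕ) (P : Finset (Bool × V × V))
    (hP : ∀ x ∈ P, x ∈ evs98 G σ D δ ω z ∧ G.t x.2.1 < τ ∧ τ < G.t x.2.2) : P.card ≤ 2 * N + 2 := by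
  classical
  have h1 := W_a4f561_P31.open_le (s := τ) (δ := δ) (fun ω => W_a4f561_h33.ch_law33 hI ω) hT.nD
    (P.image (fun x => (x.1, x.2.1))) (by
      intro x hx
      obtain ⟨y, h2, rfl⟩ := Finset.mem_image.1 hx
      obtain ⟨h3, h4, h5⟩ := hP y h2
      rw [mem_evs] at h3
      refine ⟨evk_of h3.1, h4, fun w h6 h7 h8 hm => ?_⟩
      obtain ⟨y', h9, h10⟩ := h3.2.2.2.2 w h6 h7 (lt_of_le_of_lt h8 h5)
      exact absurd (hm y' (hdk_of h9)) (not_le.2 h10))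
  rwa [Finset.card_image_of_injOn] at h1
  rintro ⟨k, v, w⟩ hx ⟨k', v', w'⟩ hx' he
  obtain ⟨h2, -, -⟩ := hP _ hx
  obtain ⟨h3, -, -⟩ := hP _ hx'
  rw [mem_evs] at h2 h3
  have h4 : k = k' := congrArg Prod.fst he
  have h5 : v = v' := congrArg Prod.snd he
  subst h4 h5
  have h6 : w = w' := dl_unique h2 h3
  rw [h6]

/-- HEADS GET IN in the form of the loop. -/
theorem hin98 (hI : WInv G σ z) (hDS : ∀ v ∈ D, v ∉ σ.S)
    (hT : TD G σ D E δ N ω z e) (hD : Dr1 G σ D ω z e vl σ1)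
    (hD1 : ∀ u, u ∈ D1 ↔ u ∉ σ1.S ∧ (u ∈ D ∨ Area G σ1.pi z (G.t vl) u)) {κ : ℝ}
    (hδ : 0 < δ) (hκ : (Fintype.card V : ℝ) * κ ≤ δ) :
    HIn G σ1 z (Bp G σ D ω z) D1 κ (evs98 G σ D δ ω z) := by
  classical
  intro x hx y hy L hL hyL hyB
  rw [mem_evs] at hx
  obtain ⟨k, v, w⟩ := x
  have hDi := D_inn98 hI hDS
  have hch := W_a4f561_h33.ch_law33 hI ω
  have hvlD : vl ∈ D := hD.vlB.2 vl hD.vlB.1 le_rfl
  have hvlN : G.t vl < G.N := G.t_in vl (hDi vl hvlD).1 (hDi vl hvlD).2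
  have hiff : ∀ v, v ∈ Bp G σ D ω z ↔ Orb σ1.pi z v ∧ G.t v ≤ G.t vl := fun v =>
    W_a4f561_h33.bp_iff hDi hch hT.exi hD
  obtain ⟨hob, hwB, hvw, hpk, -⟩ := hx
  have hpk' : δ ≤ Pk G σ D (Bp G σ D ω z) (G.t w) y := hpk y hy
  have hvB : v ∈ Bp G σ D ω z := hob.1.1
  have hvD : v ∈ D := hvB.2 v hvB.1 le_rfl
  have hwt : G.t w ≤ G.t vl := ((hiff w).1 hwB).2
  have hwN : G.t w ≤ G.N := by omega
  have hzv : Orb σ1.pi z v := ((hiff v).1 hvB).1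
  have hpv : σ1.pi v = G.lo v := by
    rw [hD.piB v hvB]
    exact hob.1.2.1
  obtain ⟨τ, h1, h2, h3, h4, h5, h6⟩ := W_a4f561_P31.head_above hD.inv.ch (hDi v hvD) (hDi _ hob.1.2.2) hzv hpv
    (hdk_of hy)
  have hzt : G.t z ≤ G.t v := orb_t hD.inv.ch hzv
  have hbz : G.b z ≤ τ := by have := G.bt z; omega
  -- `y` is in the old cell and outside of the phase
  obtain ⟨ω', e', he1, he2, he3, he4⟩ : ∃ ω', LV G (D \ Bp G σ D ω z) {v | v ∈ Bp G σ D ω z ∧ G.t v ≤ G.t w}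
      (law G σ ω') y := by
    by_contra hc
    push Not at hc
    have h7 : Pk G σ D (Bp G σ D ω z) (G.t w) y = 0 := by
      unfold Pk
      rw [W_a4f561_E.pr_eq, W_a4f561_E.Pr_false _ fun om _ => hc om]
    linarith
  have hye : G.t y < G.t e' := by
    rcases (orb_t (W_a4f561_h33.ch_law33 hI ω') he3).lt_or_eq with h7 | h7
    · exact h7
    · have h8 : y = e' := G.t_inj h7
      rw [← h8] at he1
      exact absurd he1 hyB
  have hyD := he4 y (orb_refl _ _) hye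
  have hyS : y ∉ σ1.S := by
    intro h7
    rcases (hD.S y).1 h7 with h8 | h8
    · exact hDS y hyD.1 h8
    · exact hyD.2 h8
  have hyw : G.t y < G.t w := lt_of_lt_of_le hye he1.2
  have hyC : y ∈ C0 G σ1 z (D1 \ L) (G.t v) (G.t w) :=
    ⟨⟨(hD1 y).2 ⟨hyS, Or.inl hyD.1⟩, hyL⟩, h6, τ, h1, by have := h3.2; omega, h3, h5⟩
  refine ⟨hyC, ?_⟩
  have hset : {u | Orb σ1.pi z u ∧ G.t u ≤ G.t w} = {u | u ∈ Bp G σ D ω z ∧ G.t u ≤ G.t w} := by
    ext u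
    constructor
    · rintro ⟨h7, h8⟩
      exact ⟨(hiff u).2 ⟨h7, h8.trans hwt⟩, h8⟩
    · rintro ⟨h7, h8⟩
      exact ⟨((hiff u).1 h7).1, h8⟩
  have key := W_a4f561_P31.heads_pr (G := G) (σ0 := σ) (σ1 := W_a4f561_P25.D.dm σ σ1) (σ2 := σ1) (z0 := z) (w := w)
    (y := y) (s := G.t v) (D0 := D) (W := C0 G σ1 z (D1 \ L) (G.t v) (G.t w)) (Sx := L)
    (A := {u | Area G σ1.pi z (G.t vl) u}) (ω0 := ω) (fun ω => W_a4f561_h33.ch_law33 hI ω)
    (fun ω' => W_a4f561_P25.D.dm_ch hI hD ω') (fun ω => W_a4f561_h33.ch_law33 hD.inv ω) hD.inv.ch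
    (fun u h7 h8 => W_a4f561_P25.D.dr_mem hI hD hvlN.le h7 (h8.trans hwt))
    (fun u h7 h8 => hD.noS u h8 h7)
    (fun u h7 h8 => ((hiff u).1 h7).1) hwN
    (fun ω' v' h7 h8 h9 h10 h11 => W_a4f561_P25.D.heads hI hD hvlN.le ω' h7 h8 h9 (h10.trans hwt) h11)
    (fun u h7 _ h8 ω' => W_a4f561_P25.D.law_dm hD ω' (fun h9 => by
      rcases (hD.S u).1 h9 with h10 | h10
      · exact hDS u h7 h10
      · exact h8 h10))
    (fun u h7 _ h8 h9 => by
      rcases (hD.S u).1 h9 with h10 | h10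
      · exact hDS u h7 h10
      · exact h8 h10)
    (fun u h7 h8 h9 h10 h11 => by
      by_cases h12 : u ∈ L
      · exact Or.inr h12
      · refine Or.inl ⟨⟨(hD1 u).2 ⟨h7, ?_⟩, h12⟩, h8, G.t u, h8, h9.le, ⟨G.bt u, le_rfl⟩, h11⟩
        exact h10)
    (fun u h7 => ⟨((hD1 u).1 h7.1.1).1, h7.1.2⟩) h6 h3 hbz h5
  have hset' : {u | Orb (W_a4f561_P25.D.dm σ σ1).pi z u ∧ G.t u ≤ G.t w} =
      {u | u ∈ Bp G σ D ω z ∧ G.t u ≤ G.t w} := hset
  rw [hset'] at key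
  exact (hκ.trans hpk').trans key

/-- (4) THE LABELS OF ONE SIDE. -/
theorem fam (hI : WInv G σ z) (hDS : ∀ v ∈ D, v ∉ σ.S) (hz : z ∈ D) (hs : ∀ v ∈ D, s0 < G.t v)
    (hT : TD G σ D E δ N ω z e) (hD : Dr1 G σ D ω z e vl σ1)
    (hD1 : ∀ u, u ∈ D1 ↔ u ∉ σ1.S ∧ (u ∈ D ∨ Area G σ1.pi z (G.t vl) u))
    (hL : LENS G σ D s0) (hL1 : LENS G σ1 D1 s0) (hδ : 0 < δ) :
    ∃ (q : ℕ) (F : ℕ → Set V) (s e : ℕ → ℕ),
      Fam G σ1 D1 (Bp G σ D ω z) (δ / (2 * (Fintype.card V : ℝ))) (2 * N + 2) q F s e ∧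
      (∀ l, l < q → G.t z ≤ s l ∧ ∀ u ∈ F l, G.r (host G σ1.pi z (G.t u)) < G.r u) ∧
      ∀ kd v w, Dl G σ D δ ω z kd v w → ∀ y, Hd G kd v y →
        (y ∈ Bp G σ D ω z ∧ G.t y ≤ G.t w) ∨ ∃ l, l < q ∧ e l ≤ G.t w ∧ y ∈ F l := by
  classical
  have hn : (0 : ℝ) < (Fintype.card V : ℝ) := by
    have : 0 < Fintype.card V := Fintype.card_pos_iff.2 ⟨z⟩
    exact_mod_cast this
  have hn1 : (1 : ℝ) ≤ (Fintype.card V : ℝ) := by
    have : 0 < Fintype.card V := Fintype.card_pos_iff.2 ⟨z⟩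
    exact_mod_cast this
  by_cases hδ1 : δ ≤ 1
  · have hκ0 : 0 < δ / (2 * (Fintype.card V : ℝ)) := by positivity
    have hκ1 : δ / (2 * (Fintype.card V : ℝ)) ≤ 1 := by
      rw [div_le_one (by positivity)]
      linarith
    have hκ2 : (Fintype.card V : ℝ) * (δ / (2 * (Fintype.card V : ℝ))) ≤ δ := by
      have : (Fintype.card V : ℝ) * (δ / (2 * (Fintype.card V : ℝ))) = δ / 2 := by
        field_simp
      rw [this]
      linarith
    obtain ⟨q, F, s, e', h1, _, h3, h4⟩ := fam_core (M := 2 * N + 2)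
      (lp_of hI hDS hz hs hT hD hD1 hL hL1 hκ0 hκ1) (evs98 G σ D δ ω z) (fun x hx => by
        rw [mem_evs] at hx
        exact ⟨hx.1.1.1, hx.2.1⟩) (hin98 hI hDS hT hD hD1 hδ hκ2) (open98 hI hT)
    refine ⟨q, F, s, e', h1, fun l hl => ⟨(h3 l hl).1, fun u hu => ?_⟩, fun kd v w hdl y hy => ?_⟩
    · exact (h3 l hl).2 u hu (G.t u) (h1.tm l hl u hu).1 ⟨G.bt u, le_rfl⟩
    · exact h4 (kd, v, w) (mem_evs.2 hdl) y hy
  · refine ⟨0, fun _ => ∅, fun _ => 0, fun _ => 0, ⟨?_, ?_, ?_, ?_, ?_, ?_, ?_, ?_⟩, ?_, ?_⟩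
    · exact fun l hl => absurd hl (Nat.not_lt_zero l)
    · exact fun l _ hl => absurd hl (Nat.not_lt_zero l)
    · exact fun l hl => absurd hl (Nat.not_lt_zero l)
    · exact fun _ l' _ hl => absurd hl (Nat.not_lt_zero l')
    · exact fun l hl => absurd hl (Nat.not_lt_zero l)
    · exact fun l hl => absurd hl (Nat.not_lt_zero l)
    · exact fun l hl => absurd hl (Nat.not_lt_zero l)
    · intro τ P hP
      rcases P.eq_empty_or_nonempty with h0 | ⟨l, hl⟩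
      · rw [h0]
        simp
      · exact absurd (hP l hl).1 (Nat.not_lt_zero l)
    · exact fun l hl => absurd hl (Nat.not_lt_zero l)
    · intro kd v w hdl y hy
      have h1 := hdl.2.2.2.1 y hy
      have h2 : Pk G σ D (Bp G σ D ω z) (G.t w) y ≤ 1 := by
        unfold Pk
        rw [W_a4f561_E.pr_eq]
        exact W_a4f561_E.Pr_le_one _ _
      linarith

end inst

/-- (4 LENS iii) the rest of a cell after taking out the labels. The cell has no inner drawn vertices. -/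
theorem lens_rest {σ1 : St V} {D1 F : Set V} {s0 : ℕ} (hDi : ∀ v ∈ D1, G.inn v) (hL : LENS G σ1 D1 s0)
    (hp : ∀ u ∈ F, ∃ π, Fin' G σ1 π ∧ ∃ w, w ∉ D1 ∧ Orb π u w ∧ G.t w < G.N ∧
      ∀ v, Orb π u v → G.t v < G.t w → v ∈ F) : LENS G σ1 (D1 \ F) s0 := by
  intro τ hτ x z x' w π π' hπ hπ' ax az ax' h1 h2 hp1 hp'
  have hpD : PD G D1 π x w := ⟨hp1.1, fun v k1 k2 => (hp1.2 v k1 k2).1⟩
  have hpD' : PD G D1 π' x' w := ⟨hp'.1, fun v k1 k2 => (hp'.2 v k1 k2).1⟩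
  refine ⟨hL τ hτ x z x' w π π' hπ hπ' ax az ax' h1 h2 hpD hpD', fun hzC => ?_⟩
  obtain ⟨ρ, hρ, e, heD, hze, heN, hzv⟩ := hp z hzC
  have hwD := hp1.2 w hp1.1 le_rfl
  have hwi : G.inn w := hDi w hwD.1
  have hei : G.inn e := by
    refine ⟨?_, ?_⟩
    · rintro rfl
      have := G.t_bot
      omega
    · rintro rfl
      have := G.t_top
      omega
  have hwN : G.t w < G.N := G.t_in w hwi.1 hwi.2
  have htw : τ ≤ G.t w := ax.2.trans (orb_t hπ.1 hp1.1)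
  have hte : τ ≤ G.t e := az.2.trans (orb_t hρ.1 hze)
  have hbef : ∀ {π : V → V} (_ : Ch G π) {x w : V} (_ : Orb π x w) (_ : G.inn w) (_ : G.t w < G.N) {η : ℕ}
      (_ : η ≤ G.t w), G.t (host G π x η) < G.t w ∨ host G π x η = w := by
    intro π hπ x w hw hwi hwN η hη
    have k1 := host_t hπ hw hwi
    have k2 : Orb π (host G π x η) (host G π x (G.t w)) := W_a4f561_B31.orb_host_host hπ hη (by omega)
    rw [k1] at k2
    rcases (orb_t hπ k2).lt_or_eq with k3 | k3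
    · exact Or.inl k3
    · exact Or.inr (G.t_inj k3)
  have hfrom : ∀ {π : V → V} (_ : Ch G π) {x w : V} (_ : Orb π x w) (_ : G.inn w) (_ : G.t w < G.N) {η : ℕ}
      (_ : η ≤ G.t w), Orb π (host G π x η) w := by
    intro π hπ x w hw hwi hwN η hη
    have k1 := host_t hπ hw hwi
    have k2 : Orb π (host G π x η) (host G π x (G.t w)) := W_a4f561_B31.orb_host_host hπ hη (by omega)
    rwa [k1] at k2
  have hR : ∀ η, η ≤ G.t e → host G ρ z η ∉ D1 \ F := by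
    intro η h3 hc
    rcases hbef hρ.1 hze hei heN h3 with k | k
    · exact hc.2 (hzv _ (host_orb _ _ _ _) k)
    · rw [k] at hc
      exact heD hc.1
  have hX : ∀ η, η ≤ G.t w → host G π x η ∈ D1 \ F := by
    intro η h3
    rcases hbef hπ.1 hp1.1 hwi hwN h3 with k | k
    · exact hp1.2 _ (host_orb _ _ _ _) k.le
    · rw [k]
      exact hwD
  have hX' : ∀ η, η ≤ G.t w → host G π' x' η ∈ D1 \ F := by
    intro η h3
    rcases hbef hπ'.1 hp'.1 hwi hwN h3 with k | k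
    · exact hp'.2 _ (host_orb _ _ _ _) k.le
    · rw [k]
      exact hwD
  have hlow : ∀ η, τ ≤ η → η ≤ G.t e → η ≤ G.t w → G.r (host G π x η) < G.r (host G ρ z η) := by
    intro η h3 h4 h5
    by_contra hc
    obtain ⟨η', k1, k2, k3⟩ := order hπ.1 hρ.1 ax.1 az.1 h3 (by omega) (by
      rw [host_self hπ.1 ax.2, host_self hρ.1 az.2]
      exact h1) (not_lt.1 hc)
    exact hR η' (by omega) (k3 ▸ hX η' (by omega))
  have hhigh : ∀ η, τ ≤ η → η ≤ G.t e → η ≤ G.t w → G.r (host G ρ z η) < G.r (host G π' x' η) := by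
    intro η h3 h4 h5
    by_contra hc
    obtain ⟨η', k1, k2, k3⟩ := order hρ.1 hπ'.1 az.1 ax'.1 h3 (by omega) (by
      rw [host_self hπ'.1 ax'.2, host_self hρ.1 az.2]
      exact h2) (not_lt.1 hc)
    exact hR η' (by omega) (k3 ▸ hX' η' (by omega))
  rcases Nat.lt_or_ge (G.t w) (G.t e) with h3 | h3
  · have k1 := hlow (G.t w) htw h3.le le_rfl
    have k2 := hhigh (G.t w) htw h3.le le_rfl
    rw [host_t hπ.1 hp1.1 hwi] at k1
    rw [host_t hπ'.1 hp'.1 hwi] at k2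
    omega
  · have k1 := hlow (G.t e) hte le_rfl h3
    have k2 := hhigh (G.t e) hte le_rfl h3
    rw [host_t hρ.1 hze hei] at k1 k2
    refine heD (hL (G.t e) (by omega) _ e _ w π π' hπ hπ' (host_al hπ.1 (ax.1.trans hte) heN.le)
      ⟨G.bt e, le_rfl⟩ (host_al hπ'.1 (ax'.1.trans hte) heN.le) k1 k2 ?_ ?_)
    · exact ⟨hfrom hπ.1 hp1.1 hwi hwN h3, fun v m1 m2 => hpD.2 v (orb_trans (host_orb _ _ _ _) m1) m2⟩
    · exact ⟨hfrom hπ'.1 hp'.1 hwi hwN h3, fun v m1 m2 => hpD'.2 v (orb_trans (host_orb _ _ _ _) m1) m2⟩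

end Pool.Agent.W_a4f561_P98
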