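import Pool.Agent.W_a4f561_P98.Bas98
import Pool.Agent.W_a4f561_E.Link70

/-!
MP_a4f561_co, polylog: the label step. (LENS) of a difference (iii), downward closure (DC) and (LENS) (v) (helper98).

`σ` is the closed state after relabelling, `D` the cell after relabelling, `B` = route of `z0` in `σ.pi`, `vd` the deadline,
`F` the union of the earlier labels of this side, `C` the largest good set.
-/

set_option autoImplicit false

namespace Pool.Agent.W_a4f561_P98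

open Pool.Agent.W_a4f561_h26 Pool.Agent.W_a4f561_P73

variable {V : Type} {G : Bars V} {σ : St V}

/-- `z` is above the route of `z0` (seen at the death of `z`). -/
def Abv (G : Bars V) (σ : St V) (z0 z : V) : Prop := G.r (host G σ.pi z0 (G.t z)) < G.r z

/-- The part of the route of `z0` up to the deadline. -/
def Bd (G : Bars V) (σ : St V) (z0 vd : V) : Set V := {v | Orb σ.pi z0 v ∧ G.t v ≤ G.t vd}

/-- `x` has a path to the route of `z0` before the deadline, in `D` before. -/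
def ToB (G : Bars V) (σ : St V) (D : Set V) (z0 vd x : V) : Prop :=
  ∃ π e, Fin' G σ π ∧ Orb π x e ∧ e ∈ Bd G σ z0 vd ∧ ∀ v, Orb π x v → G.t v < G.t e → v ∈ D

/-- The situation of the label step: strong lens of `D` with the route of `z0` (ends up to `vd`). -/
structure LCtx (G : Bars V) (σ : St V) (D : Set V) (z0 vd : V) : Prop where
  base : Base G σ
  z0S : z0 ∈ σ.S
  dS : ∀ v ∈ D, v ∉ σ.S
  dN : G.t vd < G.N
  sl : ∀ (τ : ℕ) (z x' : V), G.t z0 < τ → G.al z τ → G.al x' τ → G.r (host G σ.pi z0 τ) < G.r z →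
    G.r z < G.r x' → ToB G σ D z0 vd x' → z ∈ D ∨ Orb σ.pi z0 z

/-- The earlier labels (union `F`): they are in `D`, reach `B` before the deadline, and are downward closed. -/
structure Lab (G : Bars V) (σ : St V) (D F : Set V) (z0 vd : V) : Prop where
  sub : F ⊆ D
  toB : ∀ f ∈ F, ToB G σ D z0 vd f
  dc : ∀ f ∈ F, ∃ s, s < G.t f ∧ ∀ θ, s < θ → G.al f θ → ∀ u ∈ D, Abv G σ z0 u → G.al u θ →
    G.r u < G.r f → u ∈ F

/-- The candidates for a new label with start time `s`. -/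
def Cand (G : Bars V) (σ : St V) (D F : Set V) (z0 : V) (s : ℕ) : Set V :=
  {z | z ∈ D ∧ z ∉ F ∧ s < G.t z ∧ Abv G σ z0 z}

/-- Being above `B` can be seen at any time. -/
theorem abv_at (hB : Base G σ) {z0 z : V} (h0 : z0 ∈ σ.S) (hz : z ∉ σ.S) {τ : ℕ} (hb : G.b z0 ≤ τ)
    (az : G.al z τ) : Abv G σ z0 z ↔ G.r (host G σ.pi z0 τ) < G.r z := by
  have hzi : G.inn z := inn_of_S hB hz
  have hzN : G.t z < G.N := W_a4f561_B31.t_lt_of_inn G hzi
  have hne : ∀ η, host G σ.pi z0 η ≠ z := fun η e => hz (e ▸ host_S hB h0 η)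
  have hner : ∀ η, G.r (host G σ.pi z0 η) ≠ G.r z := fun η e => hne η (G.r_inj e)
  obtain ⟨h1, h2, _⟩ := order_bar hB.ch (u := z0) (y := z) (τ1 := τ) (τ2 := G.t z) hb az.1 az.2 hzN.le le_rfl
  unfold Abv
  constructor
  · intro h
    by_contra hc
    have h3 := h2 (lt_of_le_of_ne (not_lt.1 hc) (hner τ).symm)
    omega
  · intro h
    exact lt_of_le_of_ne (h1 h) (hner _)

/-- Two paths to `B` can be spliced. -/
theorem toB_of {D F : Set V} {z0 vd q e : V} {ρ : V → V} (hρ : Fin' G σ ρ) (hN : G.t vd < G.N)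
    (he : e ∈ Bd G σ z0 vd ∨ e ∈ F) (hF : ∀ f ∈ F, ToB G σ D z0 vd f) (ho : Orb ρ q e)
    (hv : ∀ v, Orb ρ q v → G.t v < G.t e → v ∈ D) : ToB G σ D z0 vd q := by
  rcases he with he | he
  · exact ⟨ρ, e, hρ, ho, he, hv⟩
  · obtain ⟨π, e', hπ, ho', he', hv'⟩ := hF e he
    have hN' : G.t e' < G.N := lt_of_le_of_lt he'.2 hN
    have heN : G.t e < G.N := lt_of_le_of_lt (orb_t hπ.1 ho') hN'
    obtain ⟨h1, h2, h3⟩ := orb_spl (G := G) (σ := σ) hρ hπ ho heN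
    refine ⟨spl G (G.t e) ρ π, e', fin_spl hρ hπ, h2 _ ho', he', fun v k1 k2 => ?_⟩
    rcases h3 v k1 with ⟨k3, k4⟩ | k3
    · exact hv v k4 k3
    · exact hv' v k3 k2

theorem toB_t {D : Set V} {z0 vd q : V} (h : ToB G σ D z0 vd q) : G.t q ≤ G.t vd := by
  obtain ⟨π, e, h1, h2, h3, _⟩ := h
  exact (orb_t h1.1 h2).trans h3.2

/-- A vertex of the route of `z0` strictly between it and a vertex with a path to `B` dies before the deadline. -/
theorem later (hB : Base G σ) {D : Set V} {z0 vd q u : V} (hN : G.t vd < G.N)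
    (h : ToB G σ D z0 vd q) {τ : ℕ} (hb : G.b z0 ≤ τ) (aq : G.al q τ) (au : G.al u τ)
    (h1 : G.r (host G σ.pi z0 τ) < G.r u) (h2 : G.r u < G.r q) : G.t u ≤ G.t vd := by
  obtain ⟨π, e, hπ, ho, he, _⟩ := h
  have heN : G.t e < G.N := lt_of_le_of_lt he.2 hN
  have hei := inn_of_lt heN
  by_contra hc
  have hτe : τ ≤ G.t e := aq.2.trans (orb_t hπ.1 ho)
  have heu : G.t e ≤ G.t u := by have := he.2; omega
  have h3 := (order_bar hB.ch (u := z0) (y := u) (τ1 := τ) (τ2 := G.t e) hb au.1 hτe heN.le heu).1 h1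
  have h4 := (order_bar hπ.1 (u := q) (y := u) (τ1 := τ) (τ2 := G.t e) aq.1 au.1 hτe heN.le heu).2.1 (by
    rw [host_self hπ.1 aq.2]
    exact h2)
  rw [host_t hB.ch he.1 hei] at h3
  rw [host_t hπ.1 ho hei] at h4
  have h5 : e = u := G.r_inj (le_antisymm h3 h4)
  have h6 := he.2
  rw [h5] at h6
  exact hc h6

/-- (DC), pointwise: a candidate below `q` at a time after `s` succeeds if `q` does. -/
theorem dc_pt {D F : Set V} {z0 vd : V} (hC : LCtx G σ D z0 vd) (hL : Lab G σ D F z0 vd) {s : ℕ}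
    (hs : G.t z0 ≤ s) {C Cp : Set V} (hCs : C ⊆ Cand G σ D F z0 s)
    (hCp : ∀ z, z ∈ Cp ↔ z ∈ Cand G σ D F z0 s ∧ (z ∈ C ∨ ∃ θ q, s < θ ∧ G.al z θ ∧ G.al q θ ∧
      (q ∈ C ∨ q ∈ Bd G σ z0 vd ∪ F) ∧ G.r z < G.r q))
    {ρ : V → V} (hρ : Fin' G σ ρ) {z q : V} {θ : ℕ} (hz : z ∈ Cand G σ D F z0 s) (hθ : s < θ)
    (az : G.al z θ) (aq : G.al q θ) (hzq : G.r z < G.r q)
    (hq : ∃ e ∈ Bd G σ z0 vd ∪ F, Orb ρ q e ∧ ∀ v, Orb ρ q v → G.t v < G.t e → v ∈ C) :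
    LV G Cp (Bd G σ z0 vd ∪ F) ρ z := by
  classical
  obtain ⟨e, he, hqe, hqv⟩ := hq
  have hB := hC.base
  have h0 := hC.z0S
  have hCD : C ⊆ D := fun v hv => (hCs hv).1
  have tS : ∀ v ∈ Bd G σ z0 vd ∪ F, G.t v ≤ G.t vd := by
    rintro v (hv | hv)
    · exact hv.2
    · exact toB_t (hL.toB v hv)
  have hvdN := hC.dN
  have hev : G.t e ≤ G.t vd := tS e he
  have heN : G.t e < G.N := by omega
  have hei : G.inn e := inn_of_lt heN
  have hθe : θ ≤ G.t e := aq.2.trans (orb_t hρ.1 hqe)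
  have hbz : G.b z0 ≤ θ := by have := G.bt z0; omega
  have hzS : z ∉ σ.S := hC.dS z hz.1
  have hPρ : ∀ η, host G ρ z0 η = host G σ.pi z0 η := fun η => host_fin hB hρ h0 η
  -- the order of the three routes
  have hPR : ∀ η, θ ≤ η → η ≤ G.N → G.r (host G σ.pi z0 η) ≤ G.r (host G ρ z η) := fun η h3 h4 => by
    rw [← hPρ]
    refine order_one hρ.1 hbz az.1 h3 h4 ?_
    rw [hPρ, host_self hρ.1 az.2]
    exact ((abv_at hB h0 hzS hbz az).1 hz.2.2.2).le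
  have hRQ : ∀ η, θ ≤ η → η ≤ G.N → G.r (host G ρ z η) ≤ G.r (host G ρ q η) := fun η h3 h4 =>
    order_one hρ.1 az.1 aq.1 h3 h4 (by
      rw [host_self hρ.1 az.2, host_self hρ.1 aq.2]
      exact hzq.le)
  have hQe : host G ρ q (G.t e) = e := host_t hρ.1 hqe hei
  -- at the death of `e` the route of `z` is in `S`
  have harr : host G ρ z (G.t e) ∈ Bd G σ z0 vd ∪ F := by
    have k1 := hPR _ hθe heN.le
    have k2 := hRQ _ hθe heN.le
    rw [hQe] at k2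
    rcases he with he | he
    · rw [host_t hB.ch he.1 hei] at k1
      rw [G.r_inj (le_antisymm k2 k1)]
      exact Or.inl he
    · rcases k2.lt_or_eq with k3 | k3
      · rcases k1.lt_or_eq with k4 | k4
        · have ae : G.al e (G.t e) := ⟨G.bt e, le_rfl⟩
          have au : G.al (host G ρ z (G.t e)) (G.t e) := host_al hρ.1 (az.1.trans hθe) heN.le
          have hb' : G.b z0 ≤ G.t e := by omega
          rcases hC.sl (G.t e) _ e (by omega) au ae k4 k3 (hL.toB e he) with k5 | k5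
          · obtain ⟨s', k6, k7⟩ := hL.dc e he
            exact Or.inr (k7 (G.t e) k6 ae _ k5 ((abv_at hB h0 (hC.dS _ k5) hb' au).2 k4) au k3)
          · exact Or.inl ⟨k5, later hB hvdN (hL.toB e he) hb' ae au k4 k3⟩
        · left
          rw [← G.r_inj k4]
          refine ⟨host_orb _ _ _ _, ?_⟩
          obtain ⟨π, e', hπ, ho, he', _⟩ := hL.toB e he
          have k5 : G.t e ≤ G.t e' := orb_t hπ.1 ho
          have he'N : G.t e' < G.N := lt_of_le_of_lt he'.2 hvdN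
          rcases host_before hB.ch he'.1 he'N k5 with k6 | k6
          · exact k6.le.trans he'.2
          · rw [k6]
            exact he'.2
      · rw [G.r_inj k3]
        exact Or.inr he
  -- the first hit
  obtain ⟨η, ⟨h3, h4, h5⟩, hmin⟩ : ∃ η, (θ ≤ η ∧ η ≤ G.t e ∧ host G ρ z η ∈ Bd G σ z0 vd ∪ F) ∧
      ∀ η', η' < η → ¬ (θ ≤ η' ∧ η' ≤ G.t e ∧ host G ρ z η' ∈ Bd G σ z0 vd ∪ F) := by
    have hex : ∃ η, θ ≤ η ∧ η ≤ G.t e ∧ host G ρ z η ∈ Bd G σ z0 vd ∪ F := ⟨G.t e, hθe, le_rfl, harr⟩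
    exact ⟨Nat.find hex, Nat.find_spec hex, fun η' hη' => Nat.find_min hex hη'⟩
  have hnot : host G ρ z η ∉ Cp := by
    intro hc
    have hc' := ((hCp _).1 hc).1
    rcases h5 with h5 | h5
    · exact hC.dS _ hc'.1 (orb_S hB h0 h5.1)
    · exact hc'.2.1 h5
  refine ⟨host G ρ z η, h5, hnot, host_orb _ _ _ _, fun v hv htv => ?_⟩
  have hvN : G.t v < G.N := by have := tS _ h5; omega
  have hvη : G.t v < η := lt_of_host hρ.1 hv hvN htv
  have hvi := inn_of_lt hvN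
  have hθv : θ ≤ G.t v := az.2.trans (orb_t hρ.1 hv)
  have hRv : host G ρ z (G.t v) = v := host_t hρ.1 hv hvi
  have hvS : v ∉ Bd G σ z0 vd ∪ F := fun hc => hmin (G.t v) hvη ⟨hθv, by omega, by rwa [hRv]⟩
  have hb' : G.b z0 ≤ G.t v := by omega
  have av : G.al v (G.t v) := ⟨G.bt v, le_rfl⟩
  have aQ : G.al (host G ρ q (G.t v)) (G.t v) := host_al hρ.1 (aq.1.trans hθv) hvN.le
  have k1 := hPR _ hθv hvN.le
  have k2 := hRQ _ hθv hvN.le
  rw [hRv] at k1 k2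
  -- the vertex of the route of `q`
  have hQ : host G ρ q (G.t v) ∈ C ∨ host G ρ q (G.t v) = e := by
    rcases host_before hρ.1 hqe heN (τ := G.t v) (by omega) with k | k
    · exact Or.inl (hqv _ (host_orb _ _ _ _) k)
    · exact Or.inr k
  rcases k2.lt_or_eq with k3 | k3
  · rcases k1.lt_or_eq with k4 | k4
    · have hto : ToB G σ D z0 vd (host G ρ q (G.t v)) := by
        refine toB_of hρ hvdN he hL.toB (orb_from_host hρ.1 hqe heN (by omega)) fun v' m1 m2 =>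
          hCD (hqv v' (orb_trans (host_orb _ _ _ _) m1) m2)
      have hvD : v ∈ D := by
        rcases hC.sl (G.t v) v _ (by omega) av aQ k4 k3 hto with k5 | k5
        · exact k5
        · exact absurd (Or.inl ⟨k5, by omega⟩) hvS
      refine (hCp v).2 ⟨⟨hvD, fun hc => hvS (Or.inr hc), by omega, k4⟩, Or.inr ⟨G.t v, _, by omega, av, aQ, ?_, k3⟩⟩
      rcases hQ with k5 | k5
      · exact Or.inl k5
      · rw [k5]
        exact Or.inr he
    · refine absurd (Or.inl ?_) hvS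
      rw [← G.r_inj k4]
      refine ⟨host_orb _ _ _ _, ?_⟩
      rw [G.r_inj k4]
      omega
  · rcases hQ with k5 | k5
    · have k6 : v ∈ C := by
        rw [G.r_inj k3]
        exact k5
      exact (hCp v).2 ⟨hCs k6, Or.inl k6⟩
    · refine absurd ?_ hvS
      rw [G.r_inj k3, k5]
      exact he

/-- The property of the members of a label. -/
def Good [Fintype V] [DecidableEq V] (G : Bars V) (σ : St V) (κ : ℝ) (S C : Set V) : Prop :=
  ∀ z ∈ C, κ ≤ pr (fun _ => none) (fun ω => LV G C S (law G σ ω) z)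

section pr

variable [Fintype V] [DecidableEq V]

omit [Fintype V] [DecidableEq V] in
theorem lv_mono {C C' S : Set V} {π : V → V} {z : V} (h : C ⊆ C') (hS : ∀ v ∈ S, v ∉ C') (hv : LV G C S π z) :
    LV G C' S π z := by
  obtain ⟨e, h1, _, h3, h4⟩ := hv
  exact ⟨e, h1, hS e h1, h3, fun v k1 k2 => h (h4 v k1 k2)⟩

theorem pr_mono98 {m : V × Bool → Option Bool} {A B : (V × Bool → Bool) → Prop} (h : ∀ ω, A ω → B ω) :
    pr m A ≤ pr m B := by
  rw [W_a4f561_E.pr_eq, W_a4f561_E.pr_eq]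
  exact W_a4f561_E.Pr_mono _ fun om _ => h om

theorem pr_one98 {m : V × Bool → Option Bool} {A : (V × Bool → Bool) → Prop} (h : ∀ ω, A ω) : pr m A = 1 := by
  rw [W_a4f561_E.pr_eq]
  exact W_a4f561_E.Pr_true _ fun om _ => h om

theorem pr_pos98 {m : V × Bool → Option Bool} {A : (V × Bool → Bool) → Prop} (h : 0 < pr m A) : ∃ ω, A ω := by
  by_contra hc
  push Not at hc
  rw [W_a4f561_E.pr_eq, W_a4f561_E.Pr_false _ fun om _ => hc om] at h
  exact lt_irrefl _ h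

/-- (DC): a candidate which is below a member of the largest good set `C`, of `B` before the deadline or of an
earlier label at a time after `s` is in `C`. -/
theorem dc {D F : Set V} {z0 vd : V} (hC : LCtx G σ D z0 vd) (hL : Lab G σ D F z0 vd) {s : ℕ}
    (hs : G.t z0 ≤ s) {κ : ℝ} (hκ : κ ≤ 1) {C : Set V} (hCs : C ⊆ Cand G σ D F z0 s)
    (hg : Good G σ κ (Bd G σ z0 vd ∪ F) C)
    (hmax : ∀ C', C' ⊆ Cand G σ D F z0 s → Good G σ κ (Bd G σ z0 vd ∪ F) C' → C' ⊆ C)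
    {z q : V} {θ : ℕ} (hz : z ∈ Cand G σ D F z0 s) (hθ : s < θ) (az : G.al z θ) (aq : G.al q θ)
    (hq : q ∈ C ∨ q ∈ Bd G σ z0 vd ∪ F) (hzq : G.r z < G.r q) : z ∈ C := by
  let Cp : Set V := {z | z ∈ Cand G σ D F z0 s ∧ (z ∈ C ∨ ∃ θ q, s < θ ∧ G.al z θ ∧ G.al q θ ∧
      (q ∈ C ∨ q ∈ Bd G σ z0 vd ∪ F) ∧ G.r z < G.r q)}
  have hCp : ∀ z, z ∈ Cp ↔ z ∈ Cand G σ D F z0 s ∧ (z ∈ C ∨ ∃ θ q, s < θ ∧ G.al z θ ∧ G.al q θ ∧
      (q ∈ C ∨ q ∈ Bd G σ z0 vd ∪ F) ∧ G.r z < G.r q) := fun z => Iff.rfl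
  have hdis : ∀ v ∈ Bd G σ z0 vd ∪ F, v ∉ Cp := by
    rintro v hv hc
    have hc' := ((hCp _).1 hc).1
    rcases hv with hv | hv
    · exact hC.dS _ hc'.1 (orb_S hC.base hC.z0S hv.1)
    · exact hc'.2.1 hv
  have hsub : C ⊆ Cp := fun v hv => ⟨hCs hv, Or.inl hv⟩
  refine hmax Cp (fun v hv => hv.1) ?_ ((hCp z).2 ⟨hz, Or.inr ⟨θ, q, hθ, az, aq, hq, hzq⟩⟩)
  intro y hy
  obtain ⟨hy1, hy2 | ⟨θ', q', k1, k2, k3, k4, k5⟩⟩ := (hCp y).1 hy
  · exact (hg y hy2).trans (pr_mono98 fun ω => lv_mono hsub hdis)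
  · rcases k4 with k4 | k4
    · refine (hg q' k4).trans (pr_mono98 fun ω hω => ?_)
      obtain ⟨e, m1, _, m3, m4⟩ := hω
      exact dc_pt hC hL hs hCs hCp (fin_law hC.base ω) hy1 k1 k2 k3 k5 ⟨e, m1, m3, m4⟩
    · refine hκ.trans (le_of_eq (pr_one98 fun ω => ?_).symm)
      refine dc_pt hC hL hs hCs hCp (fin_law hC.base ω) hy1 k1 k2 k3 k5 ⟨q', k4, orb_refl _ _, fun v m1 m2 => ?_⟩
      exact absurd (orb_t (ch_law hC.base ω) m1) (by omega)

/-- A member of a good set has a path to `B`. -/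
theorem toB_good {D F : Set V} {z0 vd : V} (hC : LCtx G σ D z0 vd) (hL : Lab G σ D F z0 vd) {κ : ℝ} (hκ : 0 < κ)
    {C : Set V} (hCD : C ⊆ D) (hg : Good G σ κ (Bd G σ z0 vd ∪ F) C) {z : V} (hz : z ∈ C) :
    ToB G σ D z0 vd z := by
  obtain ⟨ω, e, h1, _, h3, h4⟩ := pr_pos98 (lt_of_lt_of_le hκ (hg z hz))
  exact toB_of (fin_law hC.base ω) hC.dN h1 hL.toB h3 fun v k1 k2 => hCD (h4 v k1 k2)

/-- The earlier labels with the new one. -/
theorem lab_step {D F : Set V} {z0 vd : V} (hC : LCtx G σ D z0 vd) (hL : Lab G σ D F z0 vd) {s : ℕ}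
    (hs : G.t z0 ≤ s) {κ : ℝ} (hκ0 : 0 < κ) (hκ : κ ≤ 1) {C : Set V} (hCs : C ⊆ Cand G σ D F z0 s)
    (hg : Good G σ κ (Bd G σ z0 vd ∪ F) C)
    (hmax : ∀ C', C' ⊆ Cand G σ D F z0 s → Good G σ κ (Bd G σ z0 vd ∪ F) C' → C' ⊆ C) :
    Lab G σ D (F ∪ C) z0 vd := by
  refine ⟨Set.union_subset hL.sub fun v hv => (hCs hv).1, ?_, ?_⟩
  · rintro f (hf | hf)
    · exact hL.toB f hf
    · exact toB_good hC hL hκ0 (fun v hv => (hCs hv).1) hg hf
  · rintro f (hf | hf)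
    · obtain ⟨s', h1, h2⟩ := hL.dc f hf
      exact ⟨s', h1, fun θ k1 k2 u k3 k4 k5 k6 => Or.inl (h2 θ k1 k2 u k3 k4 k5 k6)⟩
    · refine ⟨s, (hCs hf).2.2.1, fun θ k1 k2 u k3 k4 k5 k6 => ?_⟩
      by_cases hu : u ∈ F
      · exact Or.inl hu
      · exact Or.inr (dc hC hL hs hκ hCs hg hmax ⟨k3, hu, by have := k5.2; omega, k4⟩ k1 k5 k2 (Or.inl hf) k6)

end pr

/-- A later deadline. -/
theorem lab_mono {D F : Set V} {z0 vd vd' : V} (h : G.t vd ≤ G.t vd') (hL : Lab G σ D F z0 vd) :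
    Lab G σ D F z0 vd' := by
  refine ⟨hL.sub, fun f hf => ?_, hL.dc⟩
  obtain ⟨π, e, h1, h2, h3, h4⟩ := hL.toB f hf
  exact ⟨π, e, h1, h2, ⟨h3.1, h3.2.trans h⟩, h4⟩

theorem lab_empty (G : Bars V) (σ : St V) (D : Set V) (z0 vd : V) : Lab G σ D ∅ z0 vd :=
  ⟨Set.empty_subset _, fun f hf => absurd hf (Set.notMem_empty f), fun f hf => absurd hf (Set.notMem_empty f)⟩

/-- (LENS) (iii): the cell after taking out a label. -/
theorem lens_diff (hB : Base G σ) {D C : Set V} {s0 : ℕ} (hD : ∀ v ∈ D, v ∉ σ.S) (hL : LENS G σ D s0)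
    (hC : ∀ z ∈ C, ∃ ρ e, Fin' G σ ρ ∧ e ∉ D ∧ Orb ρ z e ∧ G.t e < G.N ∧ ∀ v, Orb ρ z v → G.t v < G.t e → v ∈ C) :
    LENS G σ (D \ C) s0 := by
  intro τ hτ x z x' w π π' hπ hπ' ax az ax' h1 h2 hp hp'
  have hpD : PD G D π x w := ⟨hp.1, fun v k1 k2 => (hp.2 v k1 k2).1⟩
  have hpD' : PD G D π' x' w := ⟨hp'.1, fun v k1 k2 => (hp'.2 v k1 k2).1⟩
  refine ⟨hL τ hτ x z x' w π π' hπ hπ' ax az ax' h1 h2 hpD hpD', fun hzC => ?_⟩
  obtain ⟨ρ, e, hρ, heD, hze, heN, hzv⟩ := hC z hzC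
  have hwD := hp.2 w hp.1 le_rfl
  have hwi : G.inn w := inn_of_S hB (hD w hwD.1)
  have hwN : G.t w < G.N := W_a4f561_B31.t_lt_of_inn G hwi
  have htw : τ ≤ G.t w := ax.2.trans (orb_t hπ.1 hp.1)
  have hte : τ ≤ G.t e := az.2.trans (orb_t hρ.1 hze)
  -- the route of `z` up to `e` does not meet the two paths up to `w`
  have hR : ∀ η, η ≤ G.t e → host G ρ z η ∉ D \ C := by
    intro η h3 hc
    rcases host_before hρ.1 hze heN h3 with k | k
    · exact hc.2 (hzv _ (host_orb _ _ _ _) k)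
    · rw [k] at hc
      exact heD hc.1
  have hX : ∀ η, η ≤ G.t w → host G π x η ∈ D \ C := by
    intro η h3
    rcases host_before hπ.1 hp.1 hwN h3 with k | k
    · exact hp.2 _ (host_orb _ _ _ _) k.le
    · rw [k]
      exact hwD
  have hX' : ∀ η, η ≤ G.t w → host G π' x' η ∈ D \ C := by
    intro η h3
    rcases host_before hπ'.1 hp'.1 hwN h3 with k | k
    · exact hp'.2 _ (host_orb _ _ _ _) k.le
    · rw [k]
      exact hwD
  have hlow : ∀ η, τ ≤ η → η ≤ G.t e → η ≤ G.t w → G.r (host G π x η) < G.r (host G ρ z η) := by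
    intro η h3 h4 h5
    by_contra hc
    obtain ⟨η', k1, k2, k3⟩ := order hπ.1 hρ.1 ax.1 az.1 h3 (by omega) (by
      rw [host_self hπ.1 ax.2, host_self hρ.1 az.2]
      exact h1) (not_lt.1 hc)
    exact hR η' (by omega) (k3 ▸ hX η' (by omega))
  have hhigh : ∀ η, τ ≤ η → η ≤ G.t e → η ≤ G.t w → G.r (host G ρ z η) < G.r (host G π' x' η) := by
    intro η h3 h4 h5
    by_contra hc
    obtain ⟨η', k1, k2, k3⟩ := order hρ.1 hπ'.1 az.1 ax'.1 h3 (by omega) (by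
      rw [host_self hπ'.1 ax'.2, host_self hρ.1 az.2]
      exact h2) (not_lt.1 hc)
    exact hR η' (by omega) (k3 ▸ hX' η' (by omega))
  rcases Nat.lt_or_ge (G.t w) (G.t e) with h3 | h3
  · have k1 := hlow (G.t w) htw h3.le le_rfl
    have k2 := hhigh (G.t w) htw h3.le le_rfl
    rw [host_t hπ.1 hp.1 hwi] at k1
    rw [host_t hπ'.1 hp'.1 hwi] at k2
    omega
  · have k1 := hlow (G.t e) hte le_rfl h3
    have k2 := hhigh (G.t e) hte le_rfl h3
    rw [host_t hρ.1 hze (inn_of_lt heN)] at k1 k2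
    refine heD (hL (G.t e) (by omega) _ e _ w π π' hπ hπ' (host_al hπ.1 (ax.1.trans hte) heN.le)
      ⟨G.bt e, le_rfl⟩ (host_al hπ'.1 (ax'.1.trans hte) heN.le) k1 k2 ?_ ?_)
    · exact ⟨orb_from_host hπ.1 hp.1 hwN h3, fun v m1 m2 => hpD.2 v (orb_trans (host_orb _ _ _ _) m1) m2⟩
    · exact ⟨orb_from_host hπ'.1 hp'.1 hwN h3, fun v m1 m2 => hpD'.2 v (orb_trans (host_orb _ _ _ _) m1) m2⟩

/-- (LENS) (v): the new label. `D'` is the cell before taking it out. -/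
theorem lens_label (hB : Base G σ) {D' C : Set V} {z0 : V} {s0 s : ℕ} (h0 : z0 ∈ σ.S) (hs0 : s0 ≤ s)
    (hs : G.t z0 ≤ s) (hD : ∀ v ∈ D', v ∉ σ.S) (hL : LENS G σ D' s0) (hCD : C ⊆ D')
    (hab : ∀ z ∈ C, Abv G σ z0 z)
    (hdc : ∀ z ∈ D', Abv G σ z0 z → ∀ θ q, s < θ → G.al z θ → G.al q θ → q ∈ C → G.r z < G.r q → z ∈ C) :
    LENS G σ C s := by
  intro τ hτ x z x' w π π' hπ hπ' ax az ax' h1 h2 hp hp'
  have hz : z ∈ D' := hL τ (by omega) x z x' w π π' hπ hπ' ax az ax' h1 h2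
    ⟨hp.1, fun v k1 k2 => hCD (hp.2 v k1 k2)⟩ ⟨hp'.1, fun v k1 k2 => hCD (hp'.2 v k1 k2)⟩
  have hxC : x ∈ C := hp.2 x (orb_refl _ _) (orb_t hπ.1 hp.1)
  have hx'C : x' ∈ C := hp'.2 x' (orb_refl _ _) (orb_t hπ'.1 hp'.1)
  have hb : G.b z0 ≤ τ := by have := G.bt z0; omega
  refine hdc z hz ?_ τ x' hτ az ax' hx'C h2
  refine (abv_at hB h0 (hD z hz) hb az).2 ?_
  exact lt_trans ((abv_at hB h0 (hD x (hCD hxC)) hb ax).1 (hab x hxC)) h1

/-- The candidates in terms of the present cell `D'`. -/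
theorem cand_eq {D D' F : Set V} {z0 : V} (h1 : D' ⊆ D) (h2 : ∀ z ∈ F, z ∉ D')
    (h3 : ∀ z ∈ D, Abv G σ z0 z → z ∉ F → z ∈ D') (s : ℕ) :
    Cand G σ D F z0 s = {z | z ∈ D' ∧ s < G.t z ∧ Abv G σ z0 z} := by
  ext z
  constructor
  · rintro ⟨k1, k2, k3, k4⟩
    exact ⟨h3 z k1 k4 k2, k3, k4⟩
  · rintro ⟨k1, k2, k3⟩
    exact ⟨h1 k1, fun hc => h2 z hc k1, k2, k3⟩

/-- THE LABEL STEP. `D` is the cell after relabelling, `D'` the present cell (without the earlier labels of both sides),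
`F` the union of the earlier labels of this side, `C` the largest good set of candidates. Then `C` satisfies (LENS)
after `s`, the new cell `D' minus C` satisfies (LENS), and `F` with `C` is again as before. -/
theorem label_step [Fintype V] [DecidableEq V] {D D' F : Set V} {z0 vd : V} (hC : LCtx G σ D z0 vd)
    (hL : Lab G σ D F z0 vd) (h1 : D' ⊆ D) (h2 : ∀ z ∈ F, z ∉ D')
    (h3 : ∀ z ∈ D, Abv G σ z0 z → z ∉ F → z ∈ D') {s0 s : ℕ} (hs0 : s0 ≤ s) (hs : G.t z0 ≤ s)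
    (hlens : LENS G σ D' s0) {κ : ℝ} (hκ0 : 0 < κ) (hκ : κ ≤ 1) {C : Set V}
    (hCs : C ⊆ {z | z ∈ D' ∧ s < G.t z ∧ Abv G σ z0 z}) (hg : Good G σ κ (Bd G σ z0 vd ∪ F) C)
    (hmax : ∀ C', C' ⊆ {z | z ∈ D' ∧ s < G.t z ∧ Abv G σ z0 z} → Good G σ κ (Bd G σ z0 vd ∪ F) C' → C' ⊆ C) :
    LENS G σ C s ∧ LENS G σ (D' \ C) s0 ∧ Lab G σ D (F ∪ C) z0 vd ∧
    ∀ z ∈ D', s < G.t z → Abv G σ z0 z → ∀ θ q, s < θ → G.al z θ → G.al q θ → (q ∈ C ∨ q ∈ Bd G σ z0 vd ∪ F) →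
      G.r z < G.r q → z ∈ C := by
  rw [← cand_eq h1 h2 h3 s] at hCs hmax
  have hD' : ∀ v ∈ D', v ∉ σ.S := fun v hv => hC.dS v (h1 hv)
  have hCD : C ⊆ D' := fun v hv => h3 v (hCs hv).1 (hCs hv).2.2.2 (hCs hv).2.1
  have hdc : ∀ z ∈ D', s < G.t z → Abv G σ z0 z → ∀ θ q, s < θ → G.al z θ → G.al q θ →
      (q ∈ C ∨ q ∈ Bd G σ z0 vd ∪ F) → G.r z < G.r q → z ∈ C := fun z k1 k2 k3 θ q k4 k5 k6 k7 k8 =>
    dc hC hL hs hκ hCs hg hmax ⟨h1 k1, fun hc => h2 z hc k1, k2, k3⟩ k4 k5 k6 k7 k8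
  refine ⟨?_, ?_, lab_step hC hL hs hκ0 hκ hCs hg hmax, hdc⟩
  · refine lens_label hC.base hC.z0S hs0 hs hD' hlens hCD (fun z hz => (hCs hz).2.2.2) ?_
    intro z k1 k2 θ q k3 k4 k5 k6 k7
    exact hdc z k1 (by have := k4.2; omega) k2 θ q k3 k4 k5 (Or.inl k6) k7
  · refine lens_diff hC.base hD' hlens fun z hz => ?_
    obtain ⟨ω, e, k1, _, k3, k4⟩ := pr_pos98 (lt_of_lt_of_le hκ0 (hg z hz))
    refine ⟨_, e, fin_law hC.base ω, ?_, k3, ?_, k4⟩
    · rcases k1 with k1 | k1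
      · exact fun hc => hD' e hc (orb_S hC.base hC.z0S k1.1)
      · exact h2 e k1
    · have hN := hC.dN
      rcases k1 with k1 | k1
      · have := k1.2
        omega
      · have := toB_t (hL.toB e k1)
        omega

end Pool.Agent.W_a4f561_P98
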